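import Pool.Agent.TH212.PS.P12

set_option autoImplicit false

/-! Project SP: divisor correlations for sparse random shifts. Statements of the parts. -/

namespace Pool.Agent.Y958.SP
open Finset Polynomial
open Pool.Agent.H807R2.Dav
open Pool.Agent.TH212.DV
open Pool.Agent.TH212.PS

/-- distance to the nearest integer -/
noncomputable def nn (x : ℝ) : ℝ := |x - round x|

/-- Fourier transform of a finite law on the integers -/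
noncomputable def ph {ι : Type} [Fintype ι] (w : ι → ℝ) (v : ι → ℤ) (α : ℝ) : ℂ := ∑ i, (w i : ℂ) * ee ((v i : ℝ) * α)

/-- second moment over a random shift, in terms of the number of large Fourier coefficients of its law -/
def SM : Prop := ∀ (ι : Type) [Fintype ι] (w : ι → ℝ) (v : ι → ℤ) (x H M : ℕ) (G f : ℕ → ℝ) (ρ Δ g1 g2 R : ℝ),
  (∀ i, 0 ≤ w i) → ∑ i, w i = 1 → 1 ≤ M → 0 ≤ ρ → 0 ≤ Δ →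
  (∀ i, |v i| + x + H < M) →
  (∀ r : ℕ, r < M → ‖∑ n ∈ Icc 1 H, ((f n : ℝ) : ℂ) * ee ((n : ℝ) * ((r : ℝ) / M))‖ ≤ Δ) →
  ∑ n ∈ Icc 1 H, f n ^ 2 ≤ g1 → ∑ a ∈ Icc 1 x, G a ^ 2 ≤ g2 →
  (((range M).filter (fun r : ℕ => ρ < ‖ph w v ((r : ℝ) / M)‖)).card : ℝ) ≤ R →
  ∑ i, w i * (∑ a ∈ Icc 1 x, G a * (if 1 ≤ (a : ℤ) + v i ∧ (a : ℤ) + v i ≤ H then f ((a : ℤ) + v i).toNat else 0)) ^ 2 ≤
    ρ * g1 * g2 + g2 * Real.sqrt g1 * Δ * Real.sqrt (R / M)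

/-- fourth moment of the divisor function -/
def M4 : Prop := ∀ t : ℕ, ∃ C N₀ : ℕ, ∀ N : ℕ, N₀ ≤ N → ∑ n ∈ Icc 1 (2 * N), (dk (t + 2) n : ℝ) ^ 4 ≤ N * Real.log N ^ C

/-- second moments of the model and of the difference -/
def M2 : Prop := ∀ (t : ℕ) (κ : ℝ), 0 < κ → κ ≤ 1 / (4 * (t + 2)) → κ ≤ 1 / 20 → ∃ C N₀ : ℕ, ∀ N : ℕ, N₀ ≤ N →
  ∀ Y z : ℕ, Par t κ N Y z →
    ∑ n ∈ Icc 1 (2 * N), MY (WE Y t) Y (2 * N / Y) z n ^ 2 ≤ N * Real.log N ^ C ∧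
    ∑ n ∈ Icc 1 (2 * N), (FY (WE Y t) Y (2 * N / Y) n - MY (WE Y t) Y (2 * N / Y) z n) ^ 2 ≤ N * Real.log N ^ C

/-- increments of the correlations -/
def INCD : Prop := ∀ t : ℕ, ∃ C N₀ : ℕ, ∀ N : ℕ, N₀ ≤ N → ∀ x x' : ℕ, x ≤ x' → x' ≤ N → ∀ h : ℤ, |h| ≤ N →
  |Dr (t + 2) x' h - Dr (t + 2) x h| ≤ Real.sqrt (((x' : ℝ) - x) * N) * Real.log N ^ C

/-- increments of the main term -/
def INCM : Prop := ∀ (t : ℕ) (κ : ℝ), 0 < κ → κ ≤ 1 / (4 * (t + 2)) → ∃ C N₀ : ℕ, ∀ N : ℕ, N₀ ≤ N →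
  ∀ Y z : ℕ, Par t κ N Y z → ∀ x x' : ℕ, x ≤ x' → x' ≤ N → ∀ h : ℤ,
  |Mn (WE Y t) Y (2 * N / Y) z x' h - Mn (WE Y t) Y (2 * N / Y) z x h| ≤ ((x' : ℝ) - x) * Real.log N ^ C

/-- few separated points at which all the multiples are close to integers -/
def PACK : Prop := ∀ (J : ℕ) (τ : ℕ → ℕ) (N : ℕ) (g σ lam : ℝ) (S : Finset ℝ), 1 ≤ N → 1 ≤ g → 0 ≤ σ → 1 ≤ lam →
  (∀ j, j ≤ J → 1 ≤ τ j) →
  (∀ a ∈ S, 0 ≤ a ∧ a < 1 ∧ ∑ j ∈ range (J + 1), nn (a * τ j) ^ 2 ≤ σ) →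
  (∀ a ∈ S, ∀ b ∈ S, a ≠ b → 1 / (N : ℝ) ≤ |a - b|) →
  (S.card : ℝ) ≤ ((τ 0 : ℝ) + 2) * ((N : ℝ) / τ J + 2) *
    (∏ j ∈ (range J).filter (fun j => g < (τ (j + 1) : ℝ) / τ j), ((τ (j + 1) : ℝ) / τ j + 3)) *
    (lam ^ (16 * (g ^ 2 + 1) * σ) * Real.exp (J * (g + 3) / lam))

/-- from a sum of independent variables to fixed multiples -/
def IND : Prop := ∀ (J m : ℕ) (p : Fin J → Fin m → ℝ) (x : Fin J → Fin m → ℤ) (c : ℤ) (T : Fin J → ℝ) (B η ρ : ℝ) (S : Finset ℝ),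
  (∀ j k, 0 ≤ p j k) → (∀ j, ∑ k, p j k = 1) → 0 < η → 0 < ρ → (∀ j, 0 < T j) →
  (∀ j, η ≤ ∑ k, ∑ l, if T j ≤ |((x j k - x j l : ℤ) : ℝ)| ∧ |((x j k - x j l : ℤ) : ℝ)| ≤ B * T j then p j k * p j l else 0) →
  (∀ a ∈ S, ρ < ‖ph (fun ω : Fin J → Fin m => ∏ j, p j (ω j)) (fun ω => c + ∑ j, x j (ω j)) a‖) →
  ∃ τ : Fin J → ℕ, (∀ j, T j ≤ τ j ∧ (τ j : ℝ) ≤ B * T j) ∧ ∃ S' : Finset ℝ, S' ⊆ S ∧ S.card ≤ 2 * S'.card ∧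
    ∀ a ∈ S', ∑ j, nn (a * τ j) ^ 2 ≤ Real.log (1 / ρ) / (2 * η)

/-- choice of the parameters, powers of the logarithm -/
def PARL : Prop := ∀ (κ η δ A B U : ℝ), 0 < κ → 0 < η → 0 < δ → 0 ≤ A → 1 ≤ B → 0 ≤ U → ∃ N₀ : ℕ, ∀ N : ℕ, N₀ ≤ N →
  ∀ J : ℕ, (J : ℝ) ≤ Real.log N ^ A → ∃ lam : ℝ, 1 ≤ lam ∧
    lam ^ (16 * ((B * (1 + Real.log N ^ (1 / 2 - δ))) ^ 2 + 1) * (U * Real.log (Real.log N) / (2 * η))) *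
      Real.exp (J * (B * (1 + Real.log N ^ (1 / 2 - δ)) + 3) / lam) ≤ (N : ℝ) ^ κ

/-- choice of the parameters, power saving -/
def PARP : Prop := ∀ (κ η A g : ℝ), 0 < κ → 0 < η → 0 ≤ A → 1 ≤ g → ∃ θ : ℝ, 0 < θ ∧ ∃ N₀ : ℕ, ∀ N : ℕ, N₀ ≤ N →
  ∀ J : ℕ, (J : ℝ) ≤ A * Real.log N → ∃ lam : ℝ, 1 ≤ lam ∧
    lam ^ (16 * (g ^ 2 + 1) * (θ * Real.log N / (2 * η))) * Real.exp (J * (g + 3) / lam) ≤ (N : ℝ) ^ κ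

end Pool.Agent.Y958.SP
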