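import Pool.Agent.Y958.SP.Stm

set_option autoImplicit false

/-! Project SP: sharper packing (large steps cost only their ratio divided by g). -/

namespace Pool.Agent.Y958.SP
open Finset

/-- few separated points at which all the multiples are close to integers, sharper form -/
def PACK2 : Prop := ∀ (J : ℕ) (τ : ℕ → ℕ) (N : ℕ) (g σ lam : ℝ) (S : Finset ℝ), 1 ≤ N → 1 ≤ g → 0 ≤ σ → 1 ≤ lam →
  (∀ j, j ≤ J → 1 ≤ τ j) →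
  (∀ a ∈ S, 0 ≤ a ∧ a < 1 ∧ ∑ j ∈ range (J + 1), nn (a * τ j) ^ 2 ≤ σ) →
  (∀ a ∈ S, ∀ b ∈ S, a ≠ b → 1 / (N : ℝ) ≤ |a - b|) →
  (S.card : ℝ) ≤ ((τ 0 : ℝ) + 2) * ((N : ℝ) / τ J + 2) *
    (∏ j ∈ (range J).filter (fun j => g < (τ (j + 1) : ℝ) / τ j), (5 * ((τ (j + 1) : ℝ) / τ j) / g)) *
    ((Real.exp 1 * lam) ^ (16 * (g ^ 2 + 1) * σ) * Real.exp (J * (g + 3) / lam))

/-- choice of the parameters, powers of the logarithm -/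
def PARL2 : Prop := ∀ (κ η δ A B U : ℝ), 0 < κ → 0 < η → 0 < δ → 0 ≤ A → 1 ≤ B → 0 ≤ U → ∃ N₀ : ℕ, ∀ N : ℕ, N₀ ≤ N →
  ∀ J : ℕ, (J : ℝ) ≤ Real.log N ^ A → ∃ lam : ℝ, 1 ≤ lam ∧
    (Real.exp 1 * lam) ^ (16 * ((B * (1 + Real.log N ^ (1 / 2 - δ))) ^ 2 + 1) * (U * Real.log (Real.log N) / (2 * η))) *
      Real.exp (J * (B * (1 + Real.log N ^ (1 / 2 - δ)) + 3) / lam) ≤ (N : ℝ) ^ κ

end Pool.Agent.Y958.SP
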