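import Pool.Agent.Y958.SP.Stm3

set_option autoImplicit false

/-! Project SP: general sums of independent integers. -/

namespace Pool.Agent.Y958.SP
open Finset

/-- from a sum of independent variables to fixed multiples, one for each scale -/
def IND2 : Prop := ∀ (K m J : ℕ) (p : Fin K → Fin m → ℝ) (x : Fin K → Fin m → ℤ) (c : ℤ) (T : ℕ → ℝ) (B μ ρ : ℝ) (S : Finset ℝ),
  (∀ i k, 0 ≤ p i k) → (∀ i, ∑ k, p i k = 1) → 0 < μ → 0 < ρ → (∀ j, j ≤ J → 0 < T j) → 1 ≤ B → (∀ j, j < J → B * T j < T (j + 1)) →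
  (∀ j, j ≤ J → μ ≤ ∑ i, ∑ k, ∑ l, if T j ≤ |((x i k - x i l : ℤ) : ℝ)| ∧ |((x i k - x i l : ℤ) : ℝ)| ≤ B * T j then p i k * p i l else 0) →
  (∀ a ∈ S, ρ < ‖ph (fun ω : Fin K → Fin m => ∏ i, p i (ω i)) (fun ω => c + ∑ i, x i (ω i)) a‖) →
  ∃ τ : ℕ → ℕ, (∀ j, j ≤ J → T j ≤ τ j ∧ (τ j : ℝ) ≤ B * T j) ∧ ∃ S' : Finset ℝ, S' ⊆ S ∧ S.card ≤ 2 * S'.card ∧
    ∀ a ∈ S', ∑ j ∈ range (J + 1), nn (a * τ j) ^ 2 ≤ Real.log (1 / ρ) / (2 * μ)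

/-- choice of the parameters -/
def PARU : Prop := ∀ (κ B U : ℝ), 0 < κ → 1 ≤ B → 0 ≤ U → ∃ C : ℝ, 0 < C ∧ ∀ (N J : ℕ) (G μ : ℝ), 3 ≤ N → (J : ℝ) ≤ 2 * Real.log N →
  1 ≤ G → 0 < μ → C * G ^ 2 * (1 + Real.log G) * Real.log (Real.log N) ≤ μ * Real.log N → ∃ lam : ℝ, 1 ≤ lam ∧
    (Real.exp 1 * lam) ^ (16 * ((B * (5 * G)) ^ 2 + 1) * (U * Real.log (Real.log N) / (2 * μ))) *
      Real.exp (J * (B * (5 * G) + 3) / lam) ≤ (N : ℝ) ^ κ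

end Pool.Agent.Y958.SP
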