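import Pool.Agent.Y958.SP.Stm4
import Pool.Agent.Y447.SP.Ind

set_option autoImplicit false

/-! Project SP: general sums of independent integers, one multiple for each scale. -/

namespace Pool.Agent.Y958.SP.I2
open Finset
open Pool.Agent.Y958.SP (nn ph)
open Pool.Agent.Y447.SP (en en_bound nn_natAbs)

theorem t_IND2 : Pool.Agent.Y958.SP.IND2 := by
  classical
  intro K m J p x c T B μ ρ S hp hs hμ hρ hT0 hB hT hadm hS
  obtain ⟨d, hd⟩ : ∃ d : Fin K × Fin m × Fin m → ℤ, d = fun t => x t.1 t.2.1 - x t.1 t.2.2 := ⟨_, rfl⟩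
  obtain ⟨w, hw⟩ : ∃ w : Fin K × Fin m × Fin m → ℝ, w = fun t => p t.1 t.2.1 * p t.1 t.2.2 := ⟨_, rfl⟩
  have hw0 : ∀ t, 0 ≤ w t := by
    intro t
    rw [hw]
    exact mul_nonneg (hp _ _) (hp _ _)
  obtain ⟨F, hF⟩ : ∃ F : Fin K × Fin m × Fin m → ℝ, F = fun t => ∑ a ∈ S, nn (a * (d t : ℝ)) ^ 2 := ⟨_, rfl⟩
  have hF0 : ∀ t, 0 ≤ F t := by
    intro t
    rw [hF]
    exact sum_nonneg fun a _ => sq_nonneg _
  obtain ⟨A, hA⟩ : ∃ A : ℕ → Finset (Fin K × Fin m × Fin m), A = fun j =>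
      univ.filter fun t => T j ≤ |(d t : ℝ)| ∧ |(d t : ℝ)| ≤ B * T j := ⟨_, rfl⟩
  -- choice of the triples
  have hch : ∀ j : ℕ, ∃ t : ℕ, j ≤ J → (T j ≤ t ∧ (t : ℝ) ≤ B * T j) ∧
      μ * ∑ a ∈ S, nn (a * t) ^ 2 ≤ ∑ t ∈ A j, w t * F t := by
    intro j
    by_cases hj : j ≤ J
    swap
    · exact ⟨0, fun h => absurd h hj⟩
    have h1 : μ ≤ ∑ t ∈ A j, w t := by
      refine (hadm j hj).trans (le_of_eq ?_)
      rw [hA, sum_filter, ← univ_product_univ, sum_product]
      apply sum_congr rfl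
      intro i _
      rw [← univ_product_univ, sum_product]
      apply sum_congr rfl
      intro k _
      apply sum_congr rfl
      intro l _
      rw [hd, hw]
    have h2 : (A j).Nonempty := by
      by_contra hcon
      rw [not_nonempty_iff_eq_empty] at hcon
      rw [hcon, sum_empty] at h1
      linarith
    obtain ⟨t, ht, hmin⟩ := exists_min_image (A j) F h2
    have ht' : T j ≤ |(d t : ℝ)| ∧ |(d t : ℝ)| ≤ B * T j := by
      rw [hA] at ht
      exact (mem_filter.1 ht).2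
    have e0 : (((d t).natAbs : ℕ) : ℝ) = |(d t : ℝ)| := by
      rw [Nat.cast_natAbs]
      push_cast
      rfl
    refine ⟨(d t).natAbs, fun _ => ⟨?_, ?_⟩⟩
    · rw [e0]
      exact ht'
    · have hF' : ∑ a ∈ S, nn (a * (((d t).natAbs : ℕ) : ℝ)) ^ 2 = F t := by
        rw [hF]
        apply sum_congr rfl
        intro a _
        rw [nn_natAbs]
      rw [hF']
      calc μ * F t ≤ (∑ t ∈ A j, w t) * F t := mul_le_mul_of_nonneg_right h1 (hF0 t)
        _ = ∑ t' ∈ A j, w t' * F t := sum_mul _ _ _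
        _ ≤ ∑ t' ∈ A j, w t' * F t' := sum_le_sum fun t' h' => mul_le_mul_of_nonneg_left (hmin t' h') (hw0 t')
  choose τ hτ using hch
  refine ⟨τ, fun j hj => (hτ j hj).1, ?_⟩
  obtain ⟨σ, hσ⟩ : ∃ σ : ℝ, σ = Real.log (1 / ρ) / (2 * μ) := ⟨_, rfl⟩
  rw [← hσ]
  refine ⟨S.filter fun a => ∑ j ∈ range (J + 1), nn (a * τ j) ^ 2 ≤ σ, filter_subset _ _, ?_, fun a ha => (mem_filter.1 ha).2⟩
  rcases S.eq_empty_or_nonempty with hS0 | hS0
  · rw [hS0]
    simp
  -- the scales are separated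
  have hmono : ∀ j', j' ≤ J → ∀ j, j < j' → B * T j < T j' := by
    intro j'
    induction j' with
    | zero => intro _ j hj; omega
    | succ n ih =>
      intro hn j hj
      rcases Nat.lt_or_ge j n with h | h
      · have h1 := ih (by omega) j h
        have h2 := hT n (by omega)
        have h3 : T n ≤ B * T n := le_mul_of_one_le_left (hT0 n (by omega)).le hB
        linarith
      · have : j = n := by omega
        rw [this]
        exact hT n (by omega)
  have hdisj : ∀ j ∈ range (J + 1), ∀ j' ∈ range (J + 1), j ≠ j' → Disjoint (A j) (A j') := by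
    intro j hj j' hj' hne
    rw [mem_range] at hj hj'
    rw [disjoint_left]
    intro t ht ht'
    rw [hA] at ht ht'
    have h1 := (mem_filter.1 ht).2
    have h2 := (mem_filter.1 ht').2
    rcases Nat.lt_or_gt_of_ne hne with h | h
    · have := hmono j' (by omega) j h
      linarith
    · have := hmono j (by omega) j' h
      linarith
  -- the total mass
  have hall : ∑ t, w t * F t = ∑ a ∈ S, ∑ i, en (p i) (x i) a := by
    have h1 : ∀ t, w t * F t = ∑ a ∈ S, w t * nn (a * (d t : ℝ)) ^ 2 := by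
      intro t
      rw [hF, mul_sum]
    rw [sum_congr rfl (fun t _ => h1 t), sum_comm]
    apply sum_congr rfl
    intro a _
    rw [← univ_product_univ, sum_product]
    apply sum_congr rfl
    intro i _
    rw [← univ_product_univ, sum_product]
    unfold en
    apply sum_congr rfl
    intro k _
    apply sum_congr rfl
    intro l _
    rw [hd, hw]
  have htot : ∑ a ∈ S, ∑ j ∈ range (J + 1), nn (a * τ j) ^ 2 ≤ S.card * (σ / 2) := by
    have h1 : μ * ∑ a ∈ S, ∑ j ∈ range (J + 1), nn (a * τ j) ^ 2 ≤ ∑ a ∈ S, ∑ i, en (p i) (x i) a := by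
      rw [sum_comm, mul_sum, ← hall]
      calc ∑ j ∈ range (J + 1), μ * ∑ a ∈ S, nn (a * τ j) ^ 2 ≤ ∑ j ∈ range (J + 1), ∑ t ∈ A j, w t * F t :=
            sum_le_sum fun j hj => (hτ j (by rw [mem_range] at hj; omega)).2
        _ = ∑ t ∈ (range (J + 1)).biUnion A, w t * F t := (sum_biUnion (by
            intro j hj j' hj' hne
            exact hdisj j hj j' hj' hne)).symm
        _ ≤ ∑ t, w t * F t := by
            apply sum_le_sum_of_subset_of_nonneg (subset_univ _)
            intro t _ _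
            exact mul_nonneg (hw0 t) (hF0 t)
    have h2 : ∑ a ∈ S, ∑ i, en (p i) (x i) a ≤ S.card * (Real.log (1 / ρ) / 4) := by
      rw [← nsmul_eq_mul]
      apply sum_le_card_nsmul
      intro a ha
      have := en_bound p x c a ρ hp hs hρ (hS a ha)
      linarith
    have h3 : μ * (S.card * (σ / 2)) = S.card * (Real.log (1 / ρ) / 4) := by
      rw [hσ]
      field_simp
      ring
    have h4 := h1.trans h2
    rw [← h3] at h4
    exact le_of_mul_le_mul_left h4 hμ
  have hσ0 : 0 ≤ σ := by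
    obtain ⟨a, ha⟩ := hS0
    have h1 := en_bound p x c a ρ hp hs hρ (hS a ha)
    have h2 : 0 ≤ ∑ i, en (p i) (x i) a := by
      apply sum_nonneg
      intro i _
      unfold en
      refine sum_nonneg fun k _ => sum_nonneg fun l _ => ?_
      exact mul_nonneg (mul_nonneg (hp _ _) (hp _ _)) (sq_nonneg _)
    have h3 : 0 ≤ Real.log (1 / ρ) := by linarith
    rw [hσ]
    positivity
  by_contra hcon
  push Not at hcon
  have h1 := card_filter_add_card_filter_not (s := S) (fun a => ∑ j ∈ range (J + 1), nn (a * τ j) ^ 2 ≤ σ)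
  obtain ⟨S₁, hS₁⟩ : ∃ S₁, S₁ = S.filter fun a => ∑ j ∈ range (J + 1), nn (a * τ j) ^ 2 ≤ σ := ⟨_, rfl⟩
  obtain ⟨S₂, hS₂⟩ : ∃ S₂, S₂ = S.filter fun a => ¬ ∑ j ∈ range (J + 1), nn (a * τ j) ^ 2 ≤ σ := ⟨_, rfl⟩
  rw [← hS₁] at h1 hcon
  rw [← hS₂] at h1
  have h2 : S₂.Nonempty := by
    rw [← card_pos]
    omega
  have h3 : (S₂.card : ℝ) * σ < ∑ a ∈ S₂, ∑ j ∈ range (J + 1), nn (a * τ j) ^ 2 := by
    rw [← nsmul_eq_mul, ← sum_const]
    apply sum_lt_sum_of_nonempty h2
    intro a ha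
    rw [hS₂] at ha
    exact not_le.1 (mem_filter.1 ha).2
  have h4 : ∑ a ∈ S₂, ∑ j ∈ range (J + 1), nn (a * τ j) ^ 2 ≤ ∑ a ∈ S, ∑ j ∈ range (J + 1), nn (a * τ j) ^ 2 := by
    rw [hS₂]
    apply sum_le_sum_of_subset_of_nonneg (filter_subset _ _)
    intro a _ _
    exact sum_nonneg fun j _ => sq_nonneg _
  have h5 : (S.card : ℝ) ≤ 2 * S₂.card := by
    have : S.card ≤ 2 * S₂.card := by omega
    exact_mod_cast this
  have h6 : (S.card : ℝ) * (σ / 2) ≤ 2 * S₂.card * (σ / 2) :=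
    mul_le_mul_of_nonneg_right h5 (by positivity)
  linarith

end Pool.Agent.Y958.SP.I2
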