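import Pool.Agent.Y958.SP.Stm

set_option autoImplicit false

/-! Project SP: the spectral criterion with the truncated main term. -/

namespace Pool.Agent.Y958.SP
open Finset Polynomial
open Pool.Agent.H807R2.Dav
open Pool.Agent.TH212.DV
open Pool.Agent.TH212.PS

open Classical in
lemma cheb {ι : Type} [Fintype ι] (w F : ι → ℝ) (bad : ι → Prop) (a S : ℝ) (ha : 0 < a) (hw : ∀ i, 0 ≤ w i) (hF : ∀ i, 0 ≤ F i)
    (hb : ∀ i, bad i → a ≤ F i) (hS : ∑ i, w i * F i ≤ S) : ∑ i ∈ univ.filter bad, w i ≤ S / a := by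
  rw [le_div_iff₀ ha, sum_mul]
  refine le_trans ?_ hS
  calc ∑ i ∈ univ.filter bad, w i * a ≤ ∑ i ∈ univ.filter bad, w i * F i := by
        apply sum_le_sum
        intro i hi
        exact mul_le_mul_of_nonneg_left (hb i (mem_filter.1 hi).2) (hw i)
    _ ≤ _ := sum_le_sum_of_subset_of_nonneg (filter_subset _ _) fun i _ _ => mul_nonneg (hw i) (hF i)

lemma ph_neg {ι : Type} [Fintype ι] (w : ι → ℝ) (v : ι → ℤ) (α : ℝ) : ‖ph w (fun i => -v i) α‖ = ‖ph w v α‖ := by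
  have h : ph w (fun i => -v i) α = (starRingEnd ℂ) (ph w v α) := by
    unfold ph
    rw [map_sum]
    apply sum_congr rfl
    intro i _
    rw [map_mul, Complex.conj_ofReal, Pool.Agent.H373R2.T7.conj_ee]
    congr 2
    push_cast
    ring
  rw [h, RCLike.norm_conj]

open Classical in
theorem main_W (hSM : SM) (hM4 : M4) (hM2 : M2) (hID : INCD) (hIM : INCM) (t : ℕ) (κ : ℝ) (hκ0 : 0 < κ) (hκ : κ ≤ 1 / (4 * (t + 2)))
    (hκ2 : κ ≤ 1 / 20) : ∃ C N₀ : ℕ, ∀ N : ℕ, N₀ ≤ N → ∀ Y z : ℕ, Par t κ N Y z → ∀ (ι : Type) [Fintype ι] (w : ι → ℝ) (v : ι → ℤ),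
    (∀ i, 0 ≤ w i) → ∑ i, w i = 1 → (∀ i, |v i| ≤ N) → ∀ ρ : ℝ, (N : ℝ) ^ (-(κ / 16)) ≤ ρ → ρ ≤ 1 →
    (((range (5 * N)).filter (fun r : ℕ => ρ < ‖ph w v ((r : ℝ) / ((5 * N : ℕ) : ℝ))‖)).card : ℝ) ≤ (N : ℝ) ^ (κ / 4) →
    ∑ i ∈ univ.filter (fun i : ι => ∃ x : ℕ, x ≤ N ∧ ρ ^ (1 / 8 : ℝ) * N * Real.log N ^ C <
      |Dr (t + 2) x (v i) - Mn (WE Y t) Y (2 * N / Y) z x (v i)|), w i ≤ ρ ^ (1 / 2 : ℝ) * Real.log N ^ C := by
  obtain ⟨ε, hε⟩ : ∃ ε : ℝ, ε = 1 / 100 := ⟨_, rfl⟩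
  have hε0 : 0 < ε := by rw [hε]; norm_num
  obtain ⟨c4, m4, h4m⟩ := hM4 t
  obtain ⟨c2, m2, h2m⟩ := hM2 t κ hκ0 hκ hκ2
  obtain ⟨cD, mD, hDm⟩ := hID t
  obtain ⟨cM, mM, hMm⟩ := hIM t κ hκ0 hκ
  obtain ⟨c, hc⟩ : ∃ c : ℕ, c = c4 + c2 + cD + cM := ⟨_, rfl⟩
  obtain ⟨n1, h1⟩ := par_bounds t κ hκ0 hκ
  obtain ⟨n2, h2⟩ := sup_pow t κ hκ0 hκ
  obtain ⟨n3, h3⟩ := pt_bounds t ε hε0
  obtain ⟨n4, h4⟩ := pt_ww t ε hε0
  obtain ⟨n6, h6⟩ := ev_pow 0 (16 * 64) ε hε0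
  obtain ⟨n8, h8⟩ := ev_log 32
  refine ⟨2 * c + 2, n1 + n2 + n3 + n4 + n6 + n8 + m4 + m2 + mD + mM + 3, fun N hN Y z hpar ι _ w v hw hw1 hv ρ hρ hρ1 hR => ?_⟩
  obtain ⟨hY1, _, _, hz1, _, hz2, hz3, hD2⟩ := h1 N (by omega) Y z hpar
  have s2 := h2 N (by omega) Y z hpar
  have s3 := h3 N (by omega)
  have s4 := h4 N (by omega)
  have a6 := h6 N (by omega)
  have a8 := h8 N (by omega)
  rw [pow_zero, mul_one] at a6
  have b4 := h4m N (by omega)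
  obtain ⟨b2, b2'⟩ := h2m N (by omega) Y z hpar
  have bD := hDm N (by omega)
  have bM := hMm N (by omega) Y z hpar
  have hN1 : 1 ≤ N := by omega
  have hN0 : (0 : ℝ) < N := by exact_mod_cast hN1
  have hNr : (1 : ℝ) ≤ N := by exact_mod_cast hN1
  obtain ⟨ℓ, hℓ⟩ : ∃ ℓ : ℝ, ℓ = Real.log N := ⟨_, rfl⟩
  rw [← hℓ] at b4 b2 b2' bD bM a8 ⊢
  have hℓ1 : 1 ≤ ℓ := by linarith
  have hℓ0 : 0 < ℓ := by linarith
  have hρ0 : 0 < ρ := lt_of_lt_of_le (Real.rpow_pos_of_pos hN0 _) hρ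
  obtain ⟨D, hD⟩ : ∃ D, D = 2 * N / Y := ⟨_, rfl⟩
  rw [← hD] at s2 hz3 hD2 b2 b2' bM ⊢
  obtain ⟨H, hH⟩ : ∃ H, H = 2 * N := ⟨_, rfl⟩
  obtain ⟨K, hK⟩ : ∃ K : ℝ, K = (N : ℝ) ^ ε := ⟨_, rfl⟩
  rw [← hK] at a6
  have hK1 : 1 ≤ K := by linarith
  have hK0 : 0 < K := by linarith
  have hpt : ∀ n, 1 ≤ n → n ≤ H → (dk (t + 2) n : ℝ) ≤ K ∧ FY (WE Y t) Y D n ≤ K ∧ |MY (WE Y t) Y D z n| ≤ K := by
    intro n hn1 hn2
    rw [hK]
    exact s3 Y D z n hD2 (hz3.trans hD2) hn1 (by omega)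
  have hww : ∀ q ∈ Icc 1 z, ∀ n : ℕ, ww (WE Y t) Y D q n ≤ K / q := by
    intro q hq n
    rw [mem_Icc] at hq
    rw [hK]
    exact s4 Y D q n hD2 hq.1 (by omega)
  have hww' : ∀ q ∈ Icc 1 z, ∀ n : ℕ, ww (WE Y t) Y D q n ≤ K := by
    intro q hq n
    refine (hww q hq n).trans ?_
    rw [mem_Icc] at hq
    exact div_le_self hK0.le (by exact_mod_cast hq.1)
  have hYD : ∀ a n, n ≤ H → a * Y < n → a ≤ D := by
    intro a n hn ha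
    rw [hD, Nat.le_div_iff_mul_le (by omega)]
    omega
  -- powers of ρ
  obtain ⟨σ, hσ⟩ : ∃ σ : ℝ, σ = ρ ^ (1 / 8 : ℝ) := ⟨_, rfl⟩
  have hσ0 : 0 < σ := by rw [hσ]; exact Real.rpow_pos_of_pos hρ0 _
  have hσ1 : σ ≤ 1 := by rw [hσ]; exact Real.rpow_le_one hρ0.le hρ1 (by norm_num)
  have hσ8 : σ ^ 8 = ρ := by
    rw [hσ, ← Real.rpow_natCast, ← Real.rpow_mul hρ0.le]
    norm_num
  have hσ4 : σ ^ 4 = ρ ^ (1 / 2 : ℝ) := by
    rw [hσ, ← Real.rpow_natCast, ← Real.rpow_mul hρ0.le]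
    norm_num
  have hσN : (N : ℝ) ^ (-(κ / 128)) ≤ σ := by
    rw [hσ]
    calc (N : ℝ) ^ (-(κ / 128)) = ((N : ℝ) ^ (-(κ / 16))) ^ (1 / 8 : ℝ) := by
          rw [← Real.rpow_mul hN0.le]; congr 1; ring
      _ ≤ _ := Real.rpow_le_rpow (by positivity) hρ (by norm_num)
  rw [← hσ, ← hσ4]
  -- the grid
  obtain ⟨L, hL⟩ : ∃ L : ℕ, L = ⌈σ ^ 2 * N⌉₊ := ⟨_, rfl⟩
  have hσN1 : 1 ≤ σ ^ 2 * N := by
    have g1 : (N : ℝ) ^ (-(κ / 64)) ≤ σ ^ 2 := by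
      calc (N : ℝ) ^ (-(κ / 64)) = ((N : ℝ) ^ (-(κ / 128))) ^ 2 := by
            rw [← Real.rpow_natCast, ← Real.rpow_mul hN0.le]; congr 1; push_cast; ring
        _ ≤ _ := pow_le_pow_left₀ (by positivity) hσN 2
    calc (1 : ℝ) ≤ (N : ℝ) ^ (1 - κ / 64) := Real.one_le_rpow hNr (by linarith)
      _ = (N : ℝ) ^ (-(κ / 64)) * N := by rw [show 1 - κ / 64 = -(κ / 64) + 1 by ring, Real.rpow_add hN0, Real.rpow_one]
      _ ≤ _ := mul_le_mul_of_nonneg_right g1 hN0.le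
  have hL1 : σ ^ 2 * N ≤ L := by rw [hL]; exact Nat.le_ceil _
  have hL2 : (L : ℝ) ≤ 2 * (σ ^ 2 * N) := by
    have := (Nat.ceil_lt_add_one (by positivity : 0 ≤ σ ^ 2 * N)).le
    rw [← hL] at this
    linarith
  have hLpos : 0 < L := by
    have : (1 : ℝ) ≤ L := hσN1.trans hL1
    exact_mod_cast this
  have hJ : ((N / L : ℕ) : ℝ) + 1 ≤ 2 / σ ^ 2 := by
    have g1 : ((N / L : ℕ) : ℝ) ≤ (N : ℝ) / L := Nat.cast_div_le
    have g2 : (N : ℝ) / L ≤ 1 / σ ^ 2 := by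
      rw [div_le_div_iff₀ (by exact_mod_cast hLpos) (by positivity)]
      linarith
    have g3 : 1 ≤ 1 / σ ^ 2 := by
      rw [le_div_iff₀ (by positivity), one_mul]
      exact pow_le_one₀ hσ0.le hσ1
    calc ((N / L : ℕ) : ℝ) + 1 ≤ 1 / σ ^ 2 + 1 / σ ^ 2 := by linarith
      _ = _ := by ring
  -- the two families of sums
  obtain ⟨f, hf⟩ : ∃ f : ℕ → ℝ, f = fun n => FY (WE Y t) Y D n - MY (WE Y t) Y D z n := ⟨_, rfl⟩
  obtain ⟨T1, hT1⟩ : ∃ T1 : ℕ → ℤ → ℝ, T1 = fun (x : ℕ) (h : ℤ) => ∑ a ∈ Icc 1 x, (dk (t + 2) a : ℝ) *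
    (if 1 ≤ (a : ℤ) + h ∧ (a : ℤ) + h ≤ H then f ((a : ℤ) + h).toNat else 0) := ⟨_, rfl⟩
  obtain ⟨T2, hT2⟩ : ∃ T2 : ℕ → ℤ → ℝ, T2 = fun (x : ℕ) (h : ℤ) => ∑ a ∈ Icc 1 H, MY (WE Y t) Y D z a *
    (if 1 ≤ (a : ℤ) + -h ∧ (a : ℤ) + -h ≤ x then f ((a : ℤ) + -h).toNat else 0) := ⟨_, rfl⟩
  obtain ⟨g, hg⟩ : ∃ g : ℝ, g = N * ℓ ^ c := ⟨_, rfl⟩
  have hg0 : 0 < g := by rw [hg]; positivity
  have hpc : ∀ k : ℕ, k ≤ c → ℓ ^ k ≤ ℓ ^ c := fun k hk => pow_le_pow_right₀ hℓ1 hk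
  have hgd : ∀ x : ℕ, x ≤ N → ∑ a ∈ Icc 1 x, (dk (t + 2) a : ℝ) ^ 2 ≤ g := by
    intro x hx
    calc ∑ a ∈ Icc 1 x, (dk (t + 2) a : ℝ) ^ 2 ≤ ∑ a ∈ Icc 1 x, (dk (t + 2) a : ℝ) ^ 4 := by
          apply sum_le_sum
          intro a ha
          rw [mem_Icc] at ha
          rcases Nat.eq_zero_or_pos (dk (t + 2) a) with h0 | h0
          · rw [h0]; norm_num
          · exact pow_le_pow_right₀ (by exact_mod_cast h0) (by norm_num)
      _ ≤ ∑ a ∈ Icc 1 (2 * N), (dk (t + 2) a : ℝ) ^ 4 := by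
          apply sum_le_sum_of_subset_of_nonneg
          · exact Icc_subset_Icc_right (by omega)
          · intro _ _ _; positivity
      _ ≤ N * ℓ ^ c4 := b4
      _ ≤ g := by
          rw [hg]
          exact mul_le_mul_of_nonneg_left (hpc _ (by omega)) hN0.le
  have hgm : ∑ a ∈ Icc 1 H, MY (WE Y t) Y D z a ^ 2 ≤ g := by
    rw [hH, hg]
    exact b2.trans (mul_le_mul_of_nonneg_left (hpc _ (by omega)) hN0.le)
  have hgf : ∀ A : ℕ, A ≤ 2 * N → ∑ n ∈ Icc 1 A, f n ^ 2 ≤ g := by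
    intro A hA
    rw [hf, hg]
    calc ∑ n ∈ Icc 1 A, (FY (WE Y t) Y D n - MY (WE Y t) Y D z n) ^ 2 ≤ ∑ n ∈ Icc 1 (2 * N), (FY (WE Y t) Y D n - MY (WE Y t) Y D z n) ^ 2 := by
          apply sum_le_sum_of_subset_of_nonneg
          · exact Icc_subset_Icc_right hA
          · intro _ _ _; positivity
      _ ≤ _ := b2'.trans (mul_le_mul_of_nonneg_left (hpc _ (by omega)) hN0.le)
  have hsup : ∀ A : ℕ, A ≤ 2 * N → ∀ α : ℝ, ‖∑ n ∈ Icc 1 A, ((f n : ℝ) : ℂ) * ee ((n : ℝ) * α)‖ ≤ (N : ℝ) ^ (1 - κ / 4) := by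
    intro A hA α
    rw [hf]
    exact s2 A hA α
  obtain ⟨M, hM⟩ : ∃ M : ℕ, M = 5 * N := ⟨_, rfl⟩
  rw [← hM] at hR
  have hR' : (((range M).filter (fun r : ℕ => ρ < ‖ph w (fun i => -v i) ((r : ℝ) / M)‖)).card : ℝ) ≤ (N : ℝ) ^ (κ / 4) := by
    simp only [ph_neg]
    exact hR
  -- the bound for the second moments
  have hbd : ρ * g * g + g * Real.sqrt g * (N : ℝ) ^ (1 - κ / 4) * Real.sqrt ((N : ℝ) ^ (κ / 4) / M) ≤ 2 * (ρ * (N ^ 2 * ℓ ^ (2 * c))) := by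
    have e1 : ρ * g * g = ρ * (N ^ 2 * ℓ ^ (2 * c)) := by rw [hg, two_mul c, pow_add]; ring
    have hMr : (M : ℝ) = 5 * N := by rw [hM]; push_cast; ring
    have e2 : Real.sqrt g * Real.sqrt ((N : ℝ) ^ (κ / 4) / M) ≤ ℓ ^ c * (N : ℝ) ^ (κ / 8) := by
      rw [← Real.sqrt_mul hg0.le]
      apply Real.sqrt_le_iff.2
      refine ⟨by positivity, ?_⟩
      rw [hMr, hg]
      have q1 : (N : ℝ) ^ (κ / 4) = ((N : ℝ) ^ (κ / 8)) ^ 2 := by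
        rw [← Real.rpow_natCast, ← Real.rpow_mul hN0.le]; congr 1; push_cast; ring
      rw [q1, mul_pow]
      have q2 : (N : ℝ) * ℓ ^ c * (((N : ℝ) ^ (κ / 8)) ^ 2 / (5 * N)) = ℓ ^ c * ((N : ℝ) ^ (κ / 8)) ^ 2 / 5 := by
        field_simp
      rw [q2]
      have q3 : ℓ ^ c ≤ (ℓ ^ c) ^ 2 := by
        rw [sq]
        exact le_mul_of_one_le_left (by positivity) (one_le_pow₀ hℓ1)
      have q4 : 0 ≤ ((N : ℝ) ^ (κ / 8)) ^ 2 := by positivity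
      nlinarith [mul_le_mul_of_nonneg_right q3 q4, mul_nonneg (by positivity : 0 ≤ ℓ ^ c) q4]
    have e3 : g * Real.sqrt g * (N : ℝ) ^ (1 - κ / 4) * Real.sqrt ((N : ℝ) ^ (κ / 4) / M) ≤ g * (N : ℝ) ^ (1 - κ / 4) * (ℓ ^ c * (N : ℝ) ^ (κ / 8)) := by
      calc g * Real.sqrt g * (N : ℝ) ^ (1 - κ / 4) * Real.sqrt ((N : ℝ) ^ (κ / 4) / M) =
          g * (N : ℝ) ^ (1 - κ / 4) * (Real.sqrt g * Real.sqrt ((N : ℝ) ^ (κ / 4) / M)) := by ring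
        _ ≤ _ := mul_le_mul_of_nonneg_left e2 (by positivity)
    have e4 : g * (N : ℝ) ^ (1 - κ / 4) * (ℓ ^ c * (N : ℝ) ^ (κ / 8)) = (N : ℝ) ^ (-(κ / 8)) * (N ^ 2 * ℓ ^ (2 * c)) := by
      have q1 : (N : ℝ) ^ (1 - κ / 4) * (N : ℝ) ^ (κ / 8) = N * (N : ℝ) ^ (-(κ / 8)) := by
        rw [← Real.rpow_add hN0, show 1 - κ / 4 + κ / 8 = 1 + -(κ / 8) by ring, Real.rpow_add hN0, Real.rpow_one]
      calc g * (N : ℝ) ^ (1 - κ / 4) * (ℓ ^ c * (N : ℝ) ^ (κ / 8)) = g * ℓ ^ c * ((N : ℝ) ^ (1 - κ / 4) * (N : ℝ) ^ (κ / 8)) := by ring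
        _ = _ := by rw [q1, hg, two_mul c, pow_add]; ring
    have e5 : (N : ℝ) ^ (-(κ / 8)) ≤ ρ := by
      refine le_trans ?_ hρ
      exact Real.rpow_le_rpow_of_exponent_le hNr (by linarith)
    have e6 := mul_le_mul_of_nonneg_right e5 (by positivity : 0 ≤ (N : ℝ) ^ 2 * ℓ ^ (2 * c))
    rw [e1]
    linarith
  have hvM : ∀ i, |v i| + (N : ℤ) + (H : ℤ) < M := by
    intro i
    have := hv i
    omega
  have b1 : ∀ x : ℕ, x ≤ N → ∑ i, w i * T1 x (v i) ^ 2 ≤ 2 * (ρ * (N ^ 2 * ℓ ^ (2 * c))) := by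
    intro x hx
    rw [hT1]
    refine le_trans (hSM ι w v x H M (fun a => (dk (t + 2) a : ℝ)) f ρ ((N : ℝ) ^ (1 - κ / 4)) g g ((N : ℝ) ^ (κ / 4)) hw hw1 (by omega) hρ0.le
      (by positivity) (fun i => ?_) (fun r _ => hsup H (by omega) _) (hgf H (by omega)) (hgd x hx) hR) hbd
    have := hvM i
    omega
  have b2 : ∀ x : ℕ, x ≤ N → ∑ i, w i * T2 x (v i) ^ 2 ≤ 2 * (ρ * (N ^ 2 * ℓ ^ (2 * c))) := by
    intro x hx
    rw [hT2]
    refine le_trans (hSM ι w (fun i => -v i) H x M (fun a => MY (WE Y t) Y D z a) f ρ ((N : ℝ) ^ (1 - κ / 4)) g g ((N : ℝ) ^ (κ / 4)) hw hw1 (by omega) hρ0.le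
      (by positivity) (fun i => ?_) (fun r _ => hsup x (by omega) _) (hgf x (by omega)) hgm hR') hbd
    have := hvM i
    show |-v i| + _ + _ < _
    rw [abs_neg]
    omega
  obtain ⟨F, hF⟩ : ∃ F : ι → ℝ, F = fun i => ∑ j ∈ range (N / L + 1), (T1 (j * L) (v i) ^ 2 + T2 (j * L) (v i) ^ 2) := ⟨_, rfl⟩
  have hF0 : ∀ i, 0 ≤ F i := by
    intro i
    rw [hF]
    exact sum_nonneg fun j _ => by positivity
  have hFsum : ∑ i, w i * F i ≤ 8 * (σ ^ 6 * (N ^ 2 * ℓ ^ (2 * c))) := by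
    have e1 : ∑ i, w i * F i = ∑ j ∈ range (N / L + 1), ∑ i, (w i * T1 (j * L) (v i) ^ 2 + w i * T2 (j * L) (v i) ^ 2) := by
      rw [hF, sum_comm]
      apply sum_congr rfl
      intro i _
      rw [mul_sum]
      apply sum_congr rfl
      intro j _
      ring
    rw [e1]
    have g1 : ∀ j ∈ range (N / L + 1), ∑ i, (w i * T1 (j * L) (v i) ^ 2 + w i * T2 (j * L) (v i) ^ 2) ≤ 4 * (ρ * (N ^ 2 * ℓ ^ (2 * c))) := by
      intro j hj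
      rw [mem_range] at hj
      have g2 : j * L ≤ N := (Nat.mul_le_mul_right L (by omega : j ≤ N / L)).trans (Nat.div_mul_le_self N L)
      rw [sum_add_distrib]
      linarith [b1 _ g2, b2 _ g2]
    refine (sum_le_sum g1).trans ?_
    rw [sum_const, card_range, nsmul_eq_mul]
    push_cast
    calc (((N / L : ℕ) : ℝ) + 1) * (4 * (ρ * (N ^ 2 * ℓ ^ (2 * c)))) ≤ 2 / σ ^ 2 * (4 * (ρ * (N ^ 2 * ℓ ^ (2 * c)))) :=
          mul_le_mul_of_nonneg_right hJ (by positivity)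
      _ = _ := by
          rw [← hσ8]
          field_simp
          ring
  -- the exceptional set
  have hmk := cheb w F (fun i : ι => ∃ x : ℕ, x ≤ N ∧ σ * N * ℓ ^ (2 * c + 2) <
      |Dr (t + 2) x (v i) - Mn (WE Y t) Y D z x (v i)|) ((σ * N) ^ 2 / 2)
      (8 * (σ ^ 6 * (N ^ 2 * ℓ ^ (2 * c)))) (by positivity) hw hF0 (by
    rintro i ⟨x, hx, hbad⟩
    by_contra hcc
    push Not at hcc
    apply absurd hbad
    push Not
    obtain ⟨j, hj⟩ : ∃ j, j = x / L := ⟨_, rfl⟩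
    have hjL : j * L ≤ x := by rw [hj]; exact Nat.div_mul_le_self x L
    have hxj : x < j * L + L := by
      rw [hj]
      have := Nat.lt_div_mul_add hLpos (a := x)
      exact this
    have hjJ : j < N / L + 1 := by
      rw [hj]
      exact Nat.lt_succ_of_le (Nat.div_le_div_right hx)
    have hd := decomp t Y D z (j * L) N H (v i) K hK0.le hz1 (hjL.trans hx) hH (hv i) hYD hpt hww'
    have hTF : T1 (j * L) (v i) ^ 2 + T2 (j * L) (v i) ^ 2 ≤ F i := by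
      rw [hF]
      exact single_le_sum (f := fun j => T1 (j * L) (v i) ^ 2 + T2 (j * L) (v i) ^ 2)
        (fun j _ => by positivity) (mem_range.2 hjJ)
    have hTT : |T1 (j * L) (v i)| + |T2 (j * L) (v i)| ≤ σ * N := by
      have q1 : (|T1 (j * L) (v i)| + |T2 (j * L) (v i)|) ^ 2 ≤ (σ * N) ^ 2 := by
        have q2 := sq_abs (T1 (j * L) (v i))
        have q3 := sq_abs (T2 (j * L) (v i))
        nlinarith [sq_nonneg (|T1 (j * L) (v i)| - |T2 (j * L) (v i)|)]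
      exact (abs_le_of_sq_le_sq' q1 (by positivity)).2
    rw [hT1, hT2, hf] at hTT
    simp only at hTT
    have hxr : (x : ℝ) - ((j * L : ℕ) : ℝ) ≤ L := by
      have : (x : ℝ) < ((j * L : ℕ) : ℝ) + L := by exact_mod_cast hxj
      linarith
    have hxr0 : 0 ≤ (x : ℝ) - ((j * L : ℕ) : ℝ) := by
      have : ((j * L : ℕ) : ℝ) ≤ x := by exact_mod_cast hjL
      linarith
    have i1 := bD (j * L) x hjL hx (v i) (hv i)
    have i2 := bM (j * L) x hjL hx (v i)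
    have i1' : |Dr (t + 2) x (v i) - Dr (t + 2) (j * L) (v i)| ≤ 2 * (σ * N) * ℓ ^ c := by
      refine i1.trans ?_
      apply mul_le_mul _ (hpc _ (by omega)) (by positivity) (by positivity)
      apply Real.sqrt_le_iff.2
      refine ⟨by positivity, ?_⟩
      have q1 := mul_le_mul_of_nonneg_right (hxr.trans hL2) hN0.le
      nlinarith [mul_pos hσ0 hN0]
    have i2' : |Mn (WE Y t) Y D z x (v i) - Mn (WE Y t) Y D z (j * L) (v i)| ≤ 2 * (σ * N) * ℓ ^ c := by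
      refine i2.trans ?_
      apply mul_le_mul _ (hpc _ (by omega)) (by positivity) (by positivity)
      refine (hxr.trans hL2).trans ?_
      have : σ ^ 2 * N ≤ σ * N := by
        apply mul_le_mul_of_nonneg_right _ hN0.le
        nlinarith
      linarith
    have hYr : (Y : ℝ) ^ (t + 2) ≤ (N : ℝ) ^ (1 / 2 : ℝ) := by
      have g1 : ((Y : ℝ) ^ (t + 2)) ^ 2 ≤ N := by
        rw [← pow_mul, mul_comm (t + 2) 2]
        exact_mod_cast hpar.low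
      have g2 : (Y : ℝ) ^ (t + 2) ≤ Real.sqrt N := Real.le_sqrt_of_sq_le g1
      refine g2.trans ?_
      rw [Real.sqrt_eq_rpow]
    have hz6 : (z : ℝ) ^ 6 ≤ 64 * (N : ℝ) ^ (1 / 2 : ℝ) := by
      calc (z : ℝ) ^ 6 ≤ (2 * (N : ℝ) ^ κ) ^ 6 := pow_le_pow_left₀ (Nat.cast_nonneg _) hz2 6
        _ = 64 * ((N : ℝ) ^ κ) ^ 6 := by ring
        _ = 64 * (N : ℝ) ^ (6 * κ) := by
            rw [← Real.rpow_natCast, ← Real.rpow_mul hN0.le]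
            congr 2
            push_cast
            ring
        _ ≤ _ := by
            apply mul_le_mul_of_nonneg_left _ (by norm_num)
            exact Real.rpow_le_rpow_of_exponent_le hNr (by linarith)
    have j1 : 2 * (Y : ℝ) ^ (t + 2) * K ^ 2 + 2 * (z : ℝ) ^ 6 * K ^ 2 ≤ σ * N := by
      have g0 : 0 ≤ (N : ℝ) ^ (1 / 2 : ℝ) := by positivity
      have g1 : 2 * (Y : ℝ) ^ (t + 2) * K ^ 2 + 2 * (z : ℝ) ^ 6 * K ^ 2 ≤ (16 * 64) * (N : ℝ) ^ (1 / 2 : ℝ) * K ^ 2 := by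
        have : 2 * (Y : ℝ) ^ (t + 2) + 2 * (z : ℝ) ^ 6 ≤ (16 * 64) * (N : ℝ) ^ (1 / 2 : ℝ) := by linarith
        calc 2 * (Y : ℝ) ^ (t + 2) * K ^ 2 + 2 * (z : ℝ) ^ 6 * K ^ 2 = (2 * (Y : ℝ) ^ (t + 2) + 2 * (z : ℝ) ^ 6) * K ^ 2 := by ring
          _ ≤ _ := mul_le_mul_of_nonneg_right this (by positivity)
      have g2 : (16 * 64) * (N : ℝ) ^ (1 / 2 : ℝ) * K ^ 2 ≤ (N : ℝ) ^ (1 / 2 + 3 * ε) := by
        calc (16 * 64) * (N : ℝ) ^ (1 / 2 : ℝ) * K ^ 2 ≤ K * (N : ℝ) ^ (1 / 2 : ℝ) * K ^ 2 := by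
              apply mul_le_mul_of_nonneg_right _ (by positivity)
              exact mul_le_mul_of_nonneg_right a6 g0
          _ = (N : ℝ) ^ (1 / 2 : ℝ) * K ^ 3 := by ring
          _ = _ := by
              rw [hK, ← Real.rpow_natCast ((N : ℝ) ^ ε), ← Real.rpow_mul hN0.le, ← Real.rpow_add hN0]
              congr 1
              push_cast
              ring
      calc _ ≤ (N : ℝ) ^ (1 / 2 + 3 * ε) := g1.trans g2
        _ ≤ (N : ℝ) ^ (-(κ / 128) + 1) := Real.rpow_le_rpow_of_exponent_le hNr (by rw [hε]; linarith)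
        _ = (N : ℝ) ^ (-(κ / 128)) * N := by rw [Real.rpow_add hN0, Real.rpow_one]
        _ ≤ _ := mul_le_mul_of_nonneg_right hσN hN0.le
    have hℓc : 1 ≤ ℓ ^ c := one_le_pow₀ hℓ1
    have j3 : |Dr (t + 2) x (v i) - Mn (WE Y t) Y D z x (v i)| ≤ 6 * (σ * N) * ℓ ^ c := by
      have e1 : Dr (t + 2) x (v i) - Mn (WE Y t) Y D z x (v i) = (Dr (t + 2) x (v i) - Dr (t + 2) (j * L) (v i)) +
          (Dr (t + 2) (j * L) (v i) - Mn (WE Y t) Y D z (j * L) (v i)) -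
          (Mn (WE Y t) Y D z x (v i) - Mn (WE Y t) Y D z (j * L) (v i)) := by ring
      rw [e1]
      refine (abs_sub _ _).trans ?_
      refine (add_le_add (abs_add_le _ _) le_rfl).trans ?_
      have q1 : σ * N ≤ σ * N * ℓ ^ c := le_mul_of_one_le_right (by positivity) hℓc
      nlinarith [hd, hTT, i1', i2', j1]
    refine j3.trans ?_
    calc 6 * (σ * N) * ℓ ^ c ≤ (σ * N) * (ℓ ^ c * ℓ) := by
          have : 0 ≤ (σ * N) * ℓ ^ c := by positivity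
          nlinarith
      _ ≤ (σ * N) * ℓ ^ (2 * c + 2) := by
          apply mul_le_mul_of_nonneg_left _ (by positivity)
          rw [← pow_succ]
          exact pow_le_pow_right₀ hℓ1 (by omega)
      _ = _ := by ring) hFsum
  refine le_trans (le_of_eq (by congr)) (hmk.trans ?_)
  rw [div_le_iff₀ (by positivity)]
  have q1 : (32 : ℝ) ≤ ℓ ^ 2 := by nlinarith
  calc 8 * (σ ^ 6 * ((N : ℝ) ^ 2 * ℓ ^ (2 * c))) ≤ (ℓ ^ 2 / 2) * (σ ^ 6 * ((N : ℝ) ^ 2 * ℓ ^ (2 * c))) :=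
        mul_le_mul_of_nonneg_right (by linarith) (by positivity)
    _ = _ := by ring

end Pool.Agent.Y958.SP
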