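import Pool.Agent.Y958.SP.Crit

set_option autoImplicit false

/-! Project SP: the spectral criterion with the complete main term. -/

namespace Pool.Agent.Y958.SP
open Finset Polynomial
open Pool.Agent.H807R2.Dav
open Pool.Agent.TH212.DV
open Pool.Agent.TH212.PS

/-- the two asymptotic formulas with an error E -/
def GoodE (t N : ℕ) (P : ℕ → ℝ[X]) (E η : ℝ) (h : ℤ) : Prop := ∀ x : ℕ, x ≤ N → |Dr (t + 2) x h - Mf P x h| ≤ E ∧
  ((|h| : ℝ) ≤ (N : ℝ) ^ (1 - η) → |Dr (t + 2) x h - x * (Th t P h).eval (Real.log x)| ≤ E + (N : ℝ) ^ (1 - η / 4))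

/-- at most K points of the circle, pairwise at distance at least 1/N, at which the transform is larger than ρ -/
def FewLarge {ι : Type} [Fintype ι] (w : ι → ℝ) (v : ι → ℤ) (N : ℕ) (ρ K : ℝ) : Prop :=
  ∀ S : Finset ℝ, (∀ a ∈ S, 0 ≤ a ∧ a < 1 ∧ ρ < ‖ph w v a‖) → (∀ a ∈ S, ∀ b ∈ S, a ≠ b → 1 / (N : ℝ) ≤ |a - b|) → (S.card : ℝ) ≤ K

lemma few_grid {ι : Type} [Fintype ι] (w : ι → ℝ) (v : ι → ℤ) (N B : ℕ) (hN : 1 ≤ N) (ρ K : ℝ) (h : FewLarge w v N ρ K) :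
    (((range (5 * ((B + 1) * N))).filter (fun r : ℕ => ρ < ‖ph w v ((r : ℝ) / ((5 * ((B + 1) * N) : ℕ) : ℝ))‖)).card : ℝ) ≤ (10 * (B + 1)) * K := by
  obtain ⟨M, hM⟩ : ∃ M : ℕ, M = 5 * ((B + 1) * N) := ⟨_, rfl⟩
  rw [← hM]
  obtain ⟨m, hm⟩ : ∃ m : ℕ, m = 10 * (B + 1) := ⟨_, rfl⟩
  have hm0 : 0 < m := by omega
  have hM0 : 0 < M := by rw [hM]; positivity
  have hMr : (0 : ℝ) < M := by exact_mod_cast hM0
  have hMm : 2 * M = m * N := by rw [hM, hm]; ring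
  obtain ⟨A, hA⟩ : ∃ A : Finset ℕ, A = (range M).filter (fun r : ℕ => ρ < ‖ph w v ((r : ℝ) / M)‖) := ⟨_, rfl⟩
  rw [← hA]
  have h1 : A.card = ∑ k ∈ range m, (A.filter (fun r => r % m = k)).card := by
    apply card_eq_sum_card_fiberwise
    intro r _
    exact mem_coe.2 (mem_range.2 (Nat.mod_lt _ hm0))
  have h2 : ∀ k ∈ range m, ((A.filter (fun r => r % m = k)).card : ℝ) ≤ K := by
    intro k _
    obtain ⟨S, hS⟩ : ∃ S : Finset ℝ, S = (A.filter (fun r => r % m = k)).image (fun r : ℕ => (r : ℝ) / M) := ⟨_, rfl⟩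
    have hinj : S.card = (A.filter (fun r => r % m = k)).card := by
      rw [hS]
      apply card_image_of_injective
      intro a b hab
      simp only at hab
      rw [div_left_inj' hMr.ne'] at hab
      exact_mod_cast hab
    rw [← hinj]
    apply h S
    · intro a ha
      rw [hS, mem_image] at ha
      obtain ⟨r, hr, rfl⟩ := ha
      rw [mem_filter, hA, mem_filter, mem_range] at hr
      refine ⟨by positivity, ?_, hr.1.2⟩
      rw [div_lt_one hMr]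
      exact_mod_cast hr.1.1
    · intro a ha b hb hab
      rw [hS, mem_image] at ha hb
      obtain ⟨r, hr, rfl⟩ := ha
      obtain ⟨s, hs, rfl⟩ := hb
      rw [mem_filter] at hr hs
      have hrs : r ≠ s := fun h => hab (by rw [h])
      have hmod : r % m = s % m := by rw [hr.2, hs.2]
      have hdist : (m : ℝ) ≤ |(r : ℝ) - s| := by
        have hd : (m : ℤ) ∣ (r : ℤ) - s := (Nat.modEq_iff_dvd.1 (Nat.ModEq.symm hmod))
        have hne : (r : ℤ) - s ≠ 0 := by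
          intro h0
          apply hrs
          have : (r : ℤ) = s := by linarith
          exact_mod_cast this
        have := Int.le_of_dvd (abs_pos.2 hne) ((dvd_abs _ _).2 hd)
        exact_mod_cast this
      rw [← sub_div, abs_div, abs_of_pos hMr, div_le_div_iff₀ (by exact_mod_cast hN) hMr, one_mul]
      have e1 : (2 : ℝ) * M = m * N := by exact_mod_cast hMm
      have hN0 : (0 : ℝ) < N := by exact_mod_cast hN
      have := mul_le_mul_of_nonneg_right hdist hN0.le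
      linarith
  rw [h1]
  push_cast
  refine (sum_le_sum h2).trans ?_
  rw [sum_const, card_range, nsmul_eq_mul, hm]
  push_cast
  exact le_rfl

open Classical in
theorem crit (hSM : SM) (hM4 : M4) (hM2 : M2) (hID : INCD) (hIM : INCM) (t : ℕ) (P : ℕ → ℝ[X]) (hP : HW t P) :
    ∃ κ : ℝ, 0 < κ ∧ κ ≤ 1 ∧ ∃ C : ℕ, ∀ (B : ℕ) (η : ℝ), 0 < η → η ≤ 1 → ∃ N₀ : ℕ, ∀ N : ℕ, N₀ ≤ N →
    ∀ (ι : Type) [Fintype ι] (w : ι → ℝ) (v : ι → ℤ), (∀ i, 0 ≤ w i) → ∑ i, w i = 1 → (∀ i, |v i| ≤ B * N) →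
    ∀ ρ : ℝ, (N : ℝ) ^ (-κ) ≤ ρ → ρ ≤ 1 → FewLarge w v N ρ ((N : ℝ) ^ κ) →
    ∑ i ∈ univ.filter (fun i : ι => v i ≠ 0 ∧ ¬ GoodE t N P (ρ ^ (1 / 8 : ℝ) * N * Real.log N ^ C) η (v i)), w i ≤
      ρ ^ (1 / 2 : ℝ) * Real.log N ^ C := by
  obtain ⟨κ₀, hκ₀, hto⟩ := to_poly t P hP
  obtain ⟨κ₁, hκ₁⟩ : ∃ κ₁ : ℝ, κ₁ = min κ₀ (min (1 / (4 * ((t : ℝ) + 2))) (1 / 20)) := ⟨_, rfl⟩
  have hκ0 : 0 < κ₁ := by rw [hκ₁]; positivity
  have hκ1 : κ₁ ≤ κ₀ := by rw [hκ₁]; exact min_le_left _ _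
  have hκ2 : κ₁ ≤ 1 / (4 * (t + 2)) := by rw [hκ₁]; exact (min_le_right _ _).trans (min_le_left _ _)
  have hκ3 : κ₁ ≤ 1 / 20 := by rw [hκ₁]; exact (min_le_right _ _).trans (min_le_right _ _)
  obtain ⟨C1, n1, h1⟩ := main_W hSM hM4 hM2 hID hIM t κ₁ hκ0 hκ2 hκ3
  obtain ⟨θ2, hθ2, n2, h2⟩ := hto κ₁ hκ0 hκ1 hκ2 hκ3
  obtain ⟨n3, h3⟩ := complete t P hP κ₁ hκ0 (by linarith)
  obtain ⟨κ, hκ⟩ : ∃ κ : ℝ, κ = min (κ₁ / 16) (θ2 / 2) := ⟨_, rfl⟩
  have k0 : 0 < κ := by rw [hκ]; positivity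
  have k1 : κ ≤ κ₁ / 16 := by rw [hκ]; exact min_le_left _ _
  have k2 : κ ≤ θ2 / 2 := by rw [hκ]; exact min_le_right _ _
  refine ⟨κ, k0, by linarith, 2 * C1 + 2, fun B η hη hη1 => ?_⟩
  obtain ⟨n4, h4⟩ := ev_pow 0 (10 * (B + 1)) κ k0
  obtain ⟨n5, h5⟩ := small_shift t P hP η hη hη1
  obtain ⟨n6, h6⟩ := ev_log (4 * (B + 1))
  obtain ⟨n7, h7⟩ := ev_log (2 ^ C1)
  refine ⟨n1 + n2 + n3 + n4 + n5 + n6 + n7 + 3 + B, fun N hN ι _ w v hw hw1 hv ρ hρ hρ1 hfew => ?_⟩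
  have a4 := h4 N (by omega)
  rw [pow_zero, mul_one] at a4
  have a5 := h5 N (by omega)
  have a6 := h6 N (by omega)
  have a7 := h7 N (by omega)
  obtain ⟨N', hN'⟩ : ∃ N', N' = (B + 1) * N := ⟨_, rfl⟩
  have hNN : N ≤ N' := by rw [hN']; exact Nat.le_mul_of_pos_left N (by omega)
  have hN'r : (N' : ℝ) = (B + 1) * N := by rw [hN']; push_cast; ring
  have hN0 : (0 : ℝ) < N := by exact_mod_cast (by omega : 0 < N)
  have hN1 : (1 : ℝ) ≤ N := by exact_mod_cast (by omega : 1 ≤ N)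
  have hN'0 : (0 : ℝ) < N' := by exact_mod_cast (by omega : 0 < N')
  have hN'1 : (1 : ℝ) ≤ N' := by exact_mod_cast (by omega : 1 ≤ N')
  have hNNr : (N : ℝ) ≤ N' := by exact_mod_cast hNN
  have hB0 : (0 : ℝ) ≤ B := Nat.cast_nonneg B
  obtain ⟨Y, hY1, hY2⟩ := exY (2 * (t + 2)) N' (by omega)
  obtain ⟨z, hz⟩ : ∃ z : ℕ, z = ⌈(N' : ℝ) ^ κ₁⌉₊ := ⟨_, rfl⟩
  have hpar : Par t κ₁ N' Y z := ⟨hY1, hY2, hz⟩
  have hzz : (N' : ℝ) ^ κ₁ ≤ z := by rw [hz]; exact Nat.le_ceil _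
  have hv' : ∀ i, |v i| ≤ N' := by
    intro i
    refine (hv i).trans ?_
    have : B * N ≤ N' := by rw [hN']; exact Nat.mul_le_mul_right N (by omega)
    exact_mod_cast this
  have hρ0 : 0 < ρ := lt_of_lt_of_le (Real.rpow_pos_of_pos hN0 _) hρ
  have hρ' : (N' : ℝ) ^ (-(κ₁ / 16)) ≤ ρ := by
    refine le_trans ?_ hρ
    calc (N' : ℝ) ^ (-(κ₁ / 16)) ≤ (N' : ℝ) ^ (-κ) := Real.rpow_le_rpow_of_exponent_le hN'1 (by linarith)
      _ ≤ _ := Real.rpow_le_rpow_of_nonpos hN0 hNNr (by linarith)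
  have hcardR : (((range (5 * N')).filter (fun r : ℕ => ρ < ‖ph w v ((r : ℝ) / ((5 * N' : ℕ) : ℝ))‖)).card : ℝ) ≤ (N' : ℝ) ^ (κ₁ / 4) := by
    rw [hN']
    refine (few_grid w v N B (by omega) ρ _ hfew).trans ?_
    rw [← hN']
    calc (10 * ((B : ℝ) + 1)) * (N : ℝ) ^ κ ≤ (N : ℝ) ^ κ * (N : ℝ) ^ κ := mul_le_mul_of_nonneg_right a4 (by positivity)
      _ = (N : ℝ) ^ (κ + κ) := by rw [← Real.rpow_add hN0]
      _ ≤ (N : ℝ) ^ (κ₁ / 4) := Real.rpow_le_rpow_of_exponent_le hN1 (by linarith)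
      _ ≤ _ := Real.rpow_le_rpow hN0.le hNNr (by linarith)
  have key := h1 N' (by omega) Y z hpar ι w v hw hw1 hv' ρ hρ' hρ1 hcardR
  -- logarithms
  obtain ⟨ℓ, hℓ⟩ : ∃ ℓ : ℝ, ℓ = Real.log N := ⟨_, rfl⟩
  rw [← hℓ] at a6 a7 ⊢
  have hℓ1 : 1 ≤ ℓ := by linarith
  have hℓ0 : 0 < ℓ := by linarith
  have hlog' : Real.log N' ≤ 2 * ℓ := by
    rw [hN'r, Real.log_mul (by positivity) hN0.ne', ← hℓ]
    have : Real.log ((B : ℝ) + 1) ≤ ℓ := by
      rw [hℓ]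
      apply Real.log_le_log (by positivity)
      have : B + 1 ≤ N := by omega
      exact_mod_cast this
    linarith
  have hlog'0 : 0 ≤ Real.log N' := Real.log_natCast_nonneg _
  have hlogC : Real.log N' ^ C1 ≤ ℓ ^ (C1 + 1) := by
    calc Real.log N' ^ C1 ≤ (2 * ℓ) ^ C1 := pow_le_pow_left₀ hlog'0 hlog' _
      _ = 2 ^ C1 * ℓ ^ C1 := by rw [mul_pow]
      _ ≤ ℓ * ℓ ^ C1 := mul_le_mul_of_nonneg_right a7 (by positivity)
      _ = _ := by rw [pow_succ]; ring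
  obtain ⟨σ, hσ⟩ : ∃ σ : ℝ, σ = ρ ^ (1 / 8 : ℝ) := ⟨_, rfl⟩
  have hσ0 : 0 < σ := by rw [hσ]; exact Real.rpow_pos_of_pos hρ0 _
  have hσN : (N : ℝ) ^ (-(κ / 8)) ≤ σ := by
    rw [hσ]
    calc (N : ℝ) ^ (-(κ / 8)) = ((N : ℝ) ^ (-κ)) ^ (1 / 8 : ℝ) := by
          rw [← Real.rpow_mul hN0.le]; congr 1; ring
      _ ≤ _ := Real.rpow_le_rpow (by positivity) hρ (by norm_num)
  rw [← hσ] at key ⊢
  obtain ⟨E, hE⟩ : ∃ E : ℝ, E = σ * N * ℓ ^ (2 * C1 + 2) := ⟨_, rfl⟩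
  rw [← hE]
  have hX : σ * N * ℓ ≤ E / (4 * (B + 1)) * (4 * (B + 1)) := by
    rw [div_mul_cancel₀ _ (by positivity), hE]
    apply mul_le_mul_of_nonneg_left _ (by positivity)
    calc ℓ = ℓ ^ 1 := (pow_one _).symm
      _ ≤ _ := pow_le_pow_right₀ hℓ1 (by omega)
  have hE1 : σ * N' * Real.log N' ^ C1 ≤ E / 4 := by
    calc σ * N' * Real.log N' ^ C1 ≤ σ * N' * ℓ ^ (C1 + 1) := mul_le_mul_of_nonneg_left hlogC (by positivity)
      _ = (B + 1) * (σ * N * ℓ ^ (C1 + 1)) := by rw [hN'r]; ring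
      _ ≤ (ℓ / 4) * (σ * N * ℓ ^ (C1 + 1)) := mul_le_mul_of_nonneg_right (by linarith) (by positivity)
      _ = (σ * N * ℓ ^ (C1 + 2)) / 4 := by ring
      _ ≤ _ := by
          rw [hE]
          apply div_le_div_of_nonneg_right _ (by norm_num)
          apply mul_le_mul_of_nonneg_left _ (by positivity)
          exact pow_le_pow_right₀ hℓ1 (by omega)
  have hpow : ∀ e : ℝ, κ ≤ e → (N' : ℝ) ^ (1 - e) ≤ E / 4 := by
    intro e he
    have g1 : (N' : ℝ) ^ (1 - κ) ≤ (B + 1) * (N : ℝ) ^ (1 - κ) := by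
      rw [hN'r, Real.mul_rpow (by positivity) hN0.le]
      apply mul_le_mul_of_nonneg_right _ (by positivity)
      calc ((B : ℝ) + 1) ^ (1 - κ) ≤ ((B : ℝ) + 1) ^ (1 : ℝ) := Real.rpow_le_rpow_of_exponent_le (by linarith) (by linarith)
        _ = _ := Real.rpow_one _
    have g2 : (N : ℝ) ^ (1 - κ) ≤ σ * N := by
      calc (N : ℝ) ^ (1 - κ) ≤ (N : ℝ) ^ (-(κ / 8) + 1) := Real.rpow_le_rpow_of_exponent_le hN1 (by linarith)
        _ = (N : ℝ) ^ (-(κ / 8)) * N := by rw [Real.rpow_add hN0, Real.rpow_one]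
        _ ≤ _ := mul_le_mul_of_nonneg_right hσN hN0.le
    calc (N' : ℝ) ^ (1 - e) ≤ (N' : ℝ) ^ (1 - κ) := Real.rpow_le_rpow_of_exponent_le hN'1 (by linarith)
      _ ≤ (B + 1) * (σ * N) := g1.trans (mul_le_mul_of_nonneg_left g2 (by positivity))
      _ ≤ (ℓ / 4) * (σ * N) := mul_le_mul_of_nonneg_right (by linarith) (by positivity)
      _ = (σ * N * ℓ ^ 1) / 4 := by ring
      _ ≤ _ := by
          rw [hE]
          apply div_le_div_of_nonneg_right _ (by norm_num)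
          apply mul_le_mul_of_nonneg_left _ (by positivity)
          exact pow_le_pow_right₀ hℓ1 (by omega)
  have hE0 : 0 < E := by rw [hE]; positivity
  have hsub : (univ.filter (fun i : ι => v i ≠ 0 ∧ ¬ GoodE t N P E η (v i))) ⊆
      (univ.filter (fun i : ι => ∃ x : ℕ, x ≤ N' ∧ σ * N' * Real.log N' ^ C1 <
      |Dr (t + 2) x (v i) - Mn (WE Y t) Y (2 * N' / Y) z x (v i)|)) := by
    intro i hi
    rw [mem_filter] at hi ⊢
    refine ⟨mem_univ _, ?_⟩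
    by_contra hcc
    push Not at hcc
    apply hi.2.2
    intro x hx
    have b1 := hcc x (hx.trans hNN)
    have b2 := h2 N' (by omega) Y z hpar x (hx.trans hNN) (v i) (hv' i)
    have b3 := h3 N' (by omega) z hzz x (hx.trans hNN) (v i) hi.2.1 (hv' i)
    have c2 := hpow θ2 (by linarith)
    have c3 := hpow (κ₁ / 8) (by linarith)
    have c4 : |Dr (t + 2) x (v i) - Mf P x (v i)| ≤ E := by
      have e1 : Dr (t + 2) x (v i) - Mf P x (v i) = (Dr (t + 2) x (v i) - Mn (WE Y t) Y (2 * N' / Y) z x (v i)) +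
          (Mn (WE Y t) Y (2 * N' / Y) z x (v i) - Mp P z x (v i)) + (Mp P z x (v i) - Mf P x (v i)) := by ring
      rw [e1]
      refine (abs_add_le _ _).trans ?_
      refine (add_le_add (abs_add_le _ _) le_rfl).trans ?_
      linarith
    refine ⟨c4, fun hh => ?_⟩
    have b5 := a5 (v i) hi.2.1 hh x hx
    calc |Dr (t + 2) x (v i) - x * (Th t P (v i)).eval (Real.log x)| =
          |(Dr (t + 2) x (v i) - Mf P x (v i)) + (Mf P x (v i) - x * (Th t P (v i)).eval (Real.log x))| := by congr 1; ring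
      _ ≤ _ := (abs_add_le _ _).trans (add_le_add c4 b5)
  refine (sum_le_sum_of_subset_of_nonneg hsub fun i _ _ => hw i).trans (key.trans ?_)
  apply mul_le_mul_of_nonneg_left _ (by positivity)
  exact hlogC.trans (pow_le_pow_right₀ hℓ1 (by omega))

end Pool.Agent.Y958.SP
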