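import Pool.Agent.Y958.SP.Stm2

set_option autoImplicit false

/-! Project SP: few random elements of a sparse set. -/

namespace Pool.Agent.Y958.SP
open Finset

/-- `K` independent uniformly random elements of `a 0, ..., a J`: where the transform is large, most differences
`a (j + 1) - a j` are close to periods -/
def RND : Prop := ∀ (K J : ℕ) (a : ℕ → ℕ) (c : ℤ) (ε α : ℝ), 1 ≤ K → 0 ≤ ε → (∀ j, j < J → a j ≤ a (j + 1)) →
  Real.exp (-(K * ε)) < ‖ph (fun _ : Fin K → Fin (J + 1) => 1 / ((J : ℝ) + 1) ^ K) (fun ω => c + ∑ i, (a (ω i) : ℤ)) α‖ →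
  ∑ j ∈ range J, nn (α * (a (j + 1) - a j : ℕ)) ^ 2 ≤ ε * (J + 1)

/-- choice of the parameters -/
def PARK : Prop := ∀ (κ g : ℝ), 0 < κ → 1 ≤ g → ∃ ε : ℝ, 0 < ε ∧ ∃ lam : ℝ, 1 ≤ lam ∧ ∀ (N J : ℕ), 2 ≤ N → (J : ℝ) ≤ 2 * Real.log N →
    (Real.exp 1 * lam) ^ (16 * (g ^ 2 + 1) * (ε * (J + 1))) * Real.exp (J * (g + 3) / lam) ≤ (N : ℝ) ^ κ

end Pool.Agent.Y958.SP
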