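import Pool.Agent.Y958.SP.Log
import Pool.Agent.Y958.SP.Stm3

set_option autoImplicit false

/-! Project SP: few random elements of a sparse set. -/

namespace Pool.Agent.Y958.SP
open Finset Polynomial
open Pool.Agent.H807R2.Dav
open Pool.Agent.TH212.DV
open Pool.Agent.TH212.PS

lemma a_mono (J : ℕ) (a : ℕ → ℕ) (h2 : ∀ j, j < J → 2 * a j ≤ a (j + 1)) : ∀ j, j ≤ J → ∀ i, i ≤ j → a i ≤ a j := by
  intro j
  induction j with
  | zero => intro _ i hi; rw [show i = 0 by omega]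
  | succ j ih =>
    intro hj i hi
    rcases Nat.lt_or_ge i (j + 1) with h | h
    · have h3 := ih (by omega) i (by omega)
      have h4 := h2 j (by omega)
      omega
    · rw [show i = j + 1 by omega]

lemma a_pow (J : ℕ) (a : ℕ → ℕ) (h1 : 1 ≤ a 0) (h2 : ∀ j, j < J → 2 * a j ≤ a (j + 1)) : ∀ j, j ≤ J → 2 ^ j ≤ a j := by
  intro j
  induction j with
  | zero => intro _; simpa using h1
  | succ j ih =>
    intro hj
    have h3 := ih (by omega)
    have h4 := h2 j (by omega)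
    rw [pow_succ]
    omega

lemma few_rnd (hPACK : PACK2) (hRND : RND) (K J N G : ℕ) (a : ℕ → ℕ) (c : ℤ) (ε ρ lam : ℝ) (hN : 1 ≤ N) (hK : 1 ≤ K) (hJ : 1 ≤ J) (hG : 5 ≤ G)
    (hε : 0 ≤ ε) (hlam : 1 ≤ lam) (hρ : Real.exp (-(K * ε)) ≤ ρ) (ha0 : 1 ≤ a 0) (ha2 : ∀ j, j < J → 2 * a j ≤ a (j + 1)) (haN : a J ≤ N) :
    FewLarge (fun _ : Fin K → Fin (J + 1) => 1 / ((J : ℝ) + 1) ^ K) (fun ω => c + ∑ i, (a (ω i) : ℤ)) N ρ
      ((12 * G) * ((a 0 : ℝ) * ((N : ℝ) / a J) * ∏ j ∈ (range J).filter (fun j => (G : ℝ) < (a (j + 1) : ℝ) / a j), ((a (j + 1) : ℝ) / a j)) *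
        ((Real.exp 1 * lam) ^ (16 * ((2 * (G : ℝ)) ^ 2 + 1) * (ε * (J + 1))) * Real.exp (J * (2 * G + 3) / lam))) := by
  intro S hS hsep
  obtain ⟨J', rfl⟩ : ∃ J', J = J' + 1 := ⟨J - 1, by omega⟩
  have hm := a_mono _ a ha2
  have hpos : ∀ j, j ≤ J' + 1 → 1 ≤ a j := fun j hj => ha0.trans (hm j hj 0 (by omega))
  obtain ⟨τ, hτ⟩ : ∃ τ : ℕ → ℕ, τ = fun j => a (j + 1) - a j := ⟨_, rfl⟩
  have hτ1 : ∀ j, j ≤ J' → 1 ≤ τ j := fun j hj => by
    rw [hτ]
    have h1 := ha2 j (by omega)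
    have h2 := hpos j (by omega)
    show 1 ≤ a (j + 1) - a j
    omega
  have hτlo : ∀ j, j ≤ J' → (a (j + 1) : ℝ) / 2 ≤ τ j := fun j hj => by
    have h1 := ha2 j (by omega)
    have h2 : a (j + 1) ≤ 2 * τ j := by rw [hτ]; show a (j + 1) ≤ 2 * (a (j + 1) - a j); omega
    have h3 : (a (j + 1) : ℝ) ≤ 2 * τ j := by exact_mod_cast h2
    linarith
  have hτhi : ∀ j, j ≤ J' → (τ j : ℝ) ≤ a (j + 1) := fun j hj => by
    have h2 : τ j ≤ a (j + 1) := by rw [hτ]; exact Nat.sub_le _ _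
    exact_mod_cast h2
  have hposr : ∀ j, j ≤ J' + 1 → (1 : ℝ) ≤ a j := fun j hj => by exact_mod_cast hpos j hj
  have hGr : (5 : ℝ) ≤ G := by exact_mod_cast hG
  have hNr : (1 : ℝ) ≤ N := by exact_mod_cast hN
  have hpack := hPACK J' τ N (2 * G) (ε * ((J' + 1 : ℕ) + 1)) lam S hN (by linarith) (by positivity) hlam hτ1 (fun b hb => by
    obtain ⟨h1, h2, h3⟩ := hS b hb
    refine ⟨h1, h2, ?_⟩
    have h4 := hRND K (J' + 1) a c ε b hK hε (fun j hj => by have := ha2 j hj; omega) (lt_of_le_of_lt hρ h3)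
    rw [hτ]
    exact h4) hsep
  obtain ⟨r, hr⟩ : ∃ r : ℕ → ℝ, r = fun j => (a (j + 1) : ℝ) / a j := ⟨_, rfl⟩
  obtain ⟨f, hf⟩ : ∃ f : ℕ → ℝ, f = fun j => if (G : ℝ) < r j then r j else 1 := ⟨_, rfl⟩
  have hr2 : ∀ j, j ≤ J' → 2 ≤ r j := fun j hj => by
    rw [hr]
    show 2 ≤ (a (j + 1) : ℝ) / a j
    rw [le_div_iff₀ (by linarith [hposr j (by omega)])]
    exact_mod_cast ha2 j (by omega)
  have hf1 : ∀ j, j ≤ J' → 1 ≤ f j := fun j hj => by
    rw [hf]
    show 1 ≤ if (G : ℝ) < r j then r j else 1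
    split_ifs
    · linarith [hr2 j hj]
    · exact le_rfl
  have hfprod : ∏ j ∈ (range (J' + 1)).filter (fun j => (G : ℝ) < (a (j + 1) : ℝ) / a j), ((a (j + 1) : ℝ) / a j) = ∏ j ∈ range (J' + 1), f j := by
    rw [prod_filter, hf, hr]
  have hprod : (∏ j ∈ (range J').filter (fun j => 2 * (G : ℝ) < (τ (j + 1) : ℝ) / τ j), (5 * ((τ (j + 1) : ℝ) / τ j) / (2 * G))) ≤
      ∏ j ∈ range J', f (j + 1) := by
    rw [prod_filter]
    apply prod_le_prod
    · intro j _
      split_ifs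
      · positivity
      · norm_num
    · intro j hj
      rw [mem_range] at hj
      have h1 : (τ (j + 1) : ℝ) / τ j ≤ 2 * r (j + 1) := by
        rw [hr]
        show (τ (j + 1) : ℝ) / τ j ≤ 2 * ((a (j + 1 + 1) : ℝ) / a (j + 1))
        have h3 := hτlo j (by omega)
        have h4 := hτhi (j + 1) (by omega)
        have h5 := hposr (j + 1) (by omega)
        calc (τ (j + 1) : ℝ) / τ j ≤ (a (j + 1 + 1) : ℝ) / ((a (j + 1) : ℝ) / 2) := by
              apply div_le_div₀ (by positivity) h4 (by linarith) h3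
          _ = _ := by field_simp
      have h2 := hf1 (j + 1) (by omega)
      split_ifs with hc
      · have h3 : (G : ℝ) < r (j + 1) := by linarith
        rw [hf]
        show _ ≤ if (G : ℝ) < r (j + 1) then r (j + 1) else 1
        rw [if_pos h3, div_le_iff₀ (by positivity)]
        nlinarith
      · exact h2
  have hτ0 : (τ 0 : ℝ) + 2 ≤ 3 * G * (a 0 * f 0) := by
    have h1 := hτhi 0 (by omega)
    have h2 := hposr 0 (by omega)
    have h3 := hposr 1 (by omega)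
    have h4 : (a 1 : ℝ) = a 0 * r 0 := by
      rw [hr]
      show (a 1 : ℝ) = a 0 * ((a (0 + 1) : ℝ) / a 0)
      field_simp
    have h5 : r 0 ≤ G * f 0 := by
      rw [hf]
      show r 0 ≤ G * if (G : ℝ) < r 0 then r 0 else 1
      have := hr2 0 (by omega)
      split_ifs with hc
      · nlinarith
      · linarith
    calc (τ 0 : ℝ) + 2 ≤ 3 * a 1 := by linarith
      _ = 3 * (a 0 * r 0) := by rw [h4]
      _ ≤ 3 * (a 0 * (G * f 0)) := by
          apply mul_le_mul_of_nonneg_left _ (by norm_num)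
          exact mul_le_mul_of_nonneg_left h5 (by linarith)
      _ = _ := by ring
  have hτJ : (N : ℝ) / τ J' + 2 ≤ 4 * ((N : ℝ) / a (J' + 1)) := by
    have h1 := hτlo J' le_rfl
    have h2 := hposr (J' + 1) le_rfl
    have h3 : (a (J' + 1) : ℝ) ≤ N := by exact_mod_cast haN
    have h4 : 1 ≤ (N : ℝ) / a (J' + 1) := by rw [le_div_iff₀ (by linarith)]; linarith
    have h5 : (N : ℝ) / τ J' ≤ 2 * ((N : ℝ) / a (J' + 1)) := by
      calc (N : ℝ) / τ J' ≤ N / ((a (J' + 1) : ℝ) / 2) := div_le_div_of_nonneg_left (by linarith) (by linarith) h1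
        _ = _ := by field_simp
    linarith
  have hF : 0 ≤ ∏ j ∈ range J', f (j + 1) := prod_nonneg fun j hj => by
    rw [mem_range] at hj
    linarith [hf1 (j + 1) (by omega)]
  have hf0 := hf1 0 (by omega)
  have ha0r := hposr 0 (by omega)
  refine hpack.trans ?_
  have e1 : ((τ 0 : ℝ) + 2) * ((N : ℝ) / τ J' + 2) *
      (∏ j ∈ (range J').filter (fun j => 2 * (G : ℝ) < (τ (j + 1) : ℝ) / τ j), (5 * ((τ (j + 1) : ℝ) / τ j) / (2 * G))) ≤
      (12 * G) * ((a 0 : ℝ) * ((N : ℝ) / a (J' + 1)) * ∏ j ∈ (range (J' + 1)).filter (fun j => (G : ℝ) < (a (j + 1) : ℝ) / a j), ((a (j + 1) : ℝ) / a j)) := by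
    rw [hfprod, prod_range_succ']
    calc _ ≤ (3 * G * (a 0 * f 0)) * (4 * ((N : ℝ) / a (J' + 1))) * ∏ j ∈ range J', f (j + 1) := by
          apply mul_le_mul _ hprod (prod_nonneg fun j _ => by positivity) (by positivity)
          exact mul_le_mul hτ0 hτJ (by positivity) (by positivity)
      _ = _ := by ring
  apply mul_le_mul e1 _ (by positivity)
  · apply mul_nonneg (by positivity)
    apply mul_nonneg (by positivity)
    exact prod_nonneg fun j _ => by positivity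
  · apply mul_le_mul_of_nonneg_left _ (by positivity)
    apply Real.exp_le_exp.2
    apply div_le_div_of_nonneg_right _ (by linarith)
    apply mul_le_mul_of_nonneg_right _ (by positivity)
    push_cast
    linarith

end Pool.Agent.Y958.SP
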