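import Pool.Agent.Y958.SP.Few

set_option autoImplicit false

/-! Project SP: every integer becomes a good shift after adding few random elements of a sparse set. -/

namespace Pool.Agent.Y958.SP
open Finset Polynomial
open Pool.Agent.H807R2.Dav
open Pool.Agent.TH212.DV
open Pool.Agent.TH212.PS

open Classical in
theorem ind_few (hPACK : PACK2) (hRND : RND) (hPARK : PARK) (hSM : SM) (hM4 : M4) (hM2 : M2) (hID : INCD) (hIM : INCM)
    (t : ℕ) (P : ℕ → ℝ[X]) (hP : HW t P) : ∃ κ : ℝ, 0 < κ ∧ κ < 1 ∧ ∀ G U : ℕ, ∃ C : ℝ, 0 < C ∧ ∀ (B : ℕ) (η : ℝ),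
    0 < η → η ≤ 1 → ∃ N₀ : ℕ, ∀ N : ℕ, N₀ ≤ N → ∀ (J K : ℕ) (a : ℕ → ℕ) (c : ℤ),
    C * Real.log (Real.log N) ≤ K → K * a J ≤ N → |c| ≤ B * N → 1 ≤ a 0 → (∀ j, j < J → 2 * a j ≤ a (j + 1)) →
    (a 0 : ℝ) * ((N : ℝ) / a J) * ∏ j ∈ (range J).filter (fun j => (G : ℝ) < (a (j + 1) : ℝ) / a j), ((a (j + 1) : ℝ) / a j) ≤ (N : ℝ) ^ κ →
    ((univ.filter (fun ω : Fin K → Fin (J + 1) => c + ∑ i, (a (ω i) : ℤ) ≠ 0 ∧
      ¬ GoodE t N P ((N : ℝ) / Real.log N ^ U) η (c + ∑ i, (a (ω i) : ℤ)))).card : ℝ) ≤ ((J : ℝ) + 1) ^ K / Real.log N ^ U := by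
  obtain ⟨κ, hκ0, hκ1, C, hcrit⟩ := crit hSM hM4 hM2 hID hIM t P hP
  refine ⟨κ / 4, by positivity, by linarith, fun G₀ U => ?_⟩
  obtain ⟨G, hG⟩ : ∃ G : ℕ, G = max G₀ 5 := ⟨_, rfl⟩
  have hG0 : G₀ ≤ G := by rw [hG]; exact le_max_left _ _
  have hG5 : 5 ≤ G := by rw [hG]; exact le_max_right _ _
  have hGr : (5 : ℝ) ≤ G := by exact_mod_cast hG5
  have hG0r : (G₀ : ℝ) ≤ G := by exact_mod_cast hG0
  obtain ⟨ε, hε, lam, hlam, hpar⟩ := hPARK (κ / 4) (2 * G) (by positivity) (by linarith)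
  refine ⟨(8 * (U + C) : ℕ) / ε + 1, by positivity, fun B η hη hη1 => ?_⟩
  obtain ⟨n1, h1⟩ := hcrit (B + 1) η hη hη1
  obtain ⟨n3, h3⟩ := ev_pow (8 * (U + C)) 1 κ hκ0
  obtain ⟨n4, h4⟩ := ev_pow 0 (12 * G) (κ / 4) (by positivity)
  obtain ⟨n5, h5⟩ := ev_log 3
  refine ⟨n1 + n3 + n4 + n5 + 3, fun N hN J K a c hCK hKa hc ha0 ha2 hprod => ?_⟩
  have a1 := h1 N (by omega)
  have a3 := h3 N (by omega)
  have a4 := h4 N (by omega)
  have a5 := h5 N (by omega)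
  rw [one_mul] at a3
  rw [pow_zero, mul_one] at a4
  have hN1 : 1 ≤ N := by omega
  have hN0 : (0 : ℝ) < N := by exact_mod_cast hN1
  have hNr : (1 : ℝ) ≤ N := by exact_mod_cast hN1
  obtain ⟨ℓ, hℓ⟩ : ∃ ℓ : ℝ, ℓ = Real.log N := ⟨_, rfl⟩
  rw [← hℓ] at a1 a3 a5 hCK ⊢
  have hℓ1 : 1 ≤ ℓ := by linarith
  have hℓ0 : 0 < ℓ := by linarith
  have hlogℓ : 1 ≤ Real.log ℓ := by
    rw [Real.le_log_iff_exp_le hℓ0]
    exact (Real.exp_one_lt_d9.le.trans (by norm_num)).trans a5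
  have hK1 : 1 ≤ K := by
    have q1 : (0 : ℝ) ≤ ((8 * (U + C) : ℕ) : ℝ) / ε := by positivity
    have q2 : (1 : ℝ) ≤ K := by nlinarith
    exact_mod_cast q2
  have hm := a_mono J a ha2
  have haJN : a J ≤ N := le_trans (Nat.le_mul_of_pos_left _ (by omega)) hKa
  have haJ1 : 1 ≤ a J := ha0.trans (hm J le_rfl 0 (by omega))
  have haJr : (1 : ℝ) ≤ a J := by exact_mod_cast haJ1
  have haJNr : (a J : ℝ) ≤ N := by exact_mod_cast haJN
  -- J is at least one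
  have hJ1 : 1 ≤ J := by
    by_contra hJ
    have hJ0 : J = 0 := by omega
    subst hJ0
    rw [range_zero, filter_empty, prod_empty, mul_one, mul_div_cancel₀ _ (by linarith)] at hprod
    have q1 : (N : ℝ) ^ (κ / 4) < (N : ℝ) ^ (1 : ℝ) := by
      apply Real.rpow_lt_rpow_of_exponent_lt _ (by linarith)
      have : 2 ≤ N := by omega
      exact_mod_cast this
    rw [Real.rpow_one] at q1
    linarith
  have hJ2 : (J : ℝ) ≤ 2 * Real.log N := by
    have q1 := a_pow J a ha0 ha2 J le_rfl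
    have q2 : ((2 : ℝ)) ^ J ≤ N := by
      have : 2 ^ J ≤ N := q1.trans haJN
      exact_mod_cast this
    have q3 := Real.log_le_log (by positivity) q2
    rw [Real.log_pow] at q3
    have q4 := Real.log_two_gt_d9
    have q5 : (0 : ℝ) ≤ J := Nat.cast_nonneg _
    nlinarith
  -- the level
  obtain ⟨ρ, hρ⟩ : ∃ ρ : ℝ, ρ = 1 / ℓ ^ (8 * (U + C)) := ⟨_, rfl⟩
  have hρ0 : 0 < ρ := by rw [hρ]; positivity
  have hρ1 : ρ ≤ 1 := by
    rw [hρ, div_le_one (by positivity)]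
    exact one_le_pow₀ hℓ1
  have hρN : (N : ℝ) ^ (-κ) ≤ ρ := by
    rw [hρ, Real.rpow_neg hN0.le, ← one_div]
    exact one_div_le_one_div_of_le (by positivity) a3
  have hρ8 : ρ ^ (1 / 8 : ℝ) = 1 / ℓ ^ (U + C) := by
    have e1 : ρ = (1 / ℓ ^ (U + C)) ^ 8 := by rw [hρ, div_pow, one_pow, ← pow_mul, mul_comm (U + C) 8]
    rw [e1, ← Real.rpow_natCast, ← Real.rpow_mul (by positivity)]
    norm_num
  have hρ2 : ρ ^ (1 / 2 : ℝ) ≤ 1 / ℓ ^ (U + C) := by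
    rw [← hρ8]
    exact Real.rpow_le_rpow_of_exponent_ge hρ0 hρ1 (by norm_num)
  have hρexp : Real.exp (-(K * ε)) ≤ ρ := by
    have e1 : ρ = Real.exp (-(((8 * (U + C) : ℕ) : ℝ) * Real.log ℓ)) := by
      rw [hρ, Real.exp_neg, ← Real.log_pow, Real.exp_log (by positivity), one_div]
    rw [e1]
    apply Real.exp_le_exp.2
    apply neg_le_neg
    calc ((8 * (U + C) : ℕ) : ℝ) * Real.log ℓ ≤ ((((8 * (U + C) : ℕ) : ℝ) / ε + 1) * Real.log ℓ) * ε := by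
          have : ((((8 * (U + C) : ℕ) : ℝ) / ε + 1) * Real.log ℓ) * ε = ((8 * (U + C) : ℕ) : ℝ) * Real.log ℓ + Real.log ℓ * ε := by
            field_simp
          rw [this]
          have : 0 ≤ Real.log ℓ * ε := by positivity
          linarith
      _ ≤ K * ε := mul_le_mul_of_nonneg_right hCK hε.le
  -- few large coefficients
  have hfew := few_rnd hPACK hRND K J N G a c ε ρ lam hN1 hK1 hJ1 hG5 hε.le hlam hρexp ha0 ha2 haJN
  have hfew' : FewLarge (fun _ : Fin K → Fin (J + 1) => 1 / ((J : ℝ) + 1) ^ K) (fun ω => c + ∑ i, (a (ω i) : ℤ)) N ρ ((N : ℝ) ^ κ) := by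
    intro S hS hsep
    refine (hfew S hS hsep).trans ?_
    have q1 : ∏ j ∈ (range J).filter (fun j => (G : ℝ) < (a (j + 1) : ℝ) / a j), ((a (j + 1) : ℝ) / a j) ≤
        ∏ j ∈ (range J).filter (fun j => (G₀ : ℝ) < (a (j + 1) : ℝ) / a j), ((a (j + 1) : ℝ) / a j) := by
      apply prod_mono
      · intro j hj
        rw [mem_filter] at hj ⊢
        exact ⟨hj.1, by linarith [hj.2]⟩
      · intro j hj
        rw [mem_filter, mem_range] at hj
        have q2 : 1 ≤ a j := ha0.trans (hm j (by omega) 0 (by omega))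
        rw [le_div_iff₀ (by exact_mod_cast q2), one_mul]
        have := ha2 j hj.1
        have q3 : a j ≤ a (j + 1) := by omega
        exact_mod_cast q3
    have q2 : (a 0 : ℝ) * ((N : ℝ) / a J) * ∏ j ∈ (range J).filter (fun j => (G : ℝ) < (a (j + 1) : ℝ) / a j), ((a (j + 1) : ℝ) / a j) ≤
        (N : ℝ) ^ (κ / 4) := (mul_le_mul_of_nonneg_left q1 (by positivity)).trans hprod
    have q3 := hpar N J (by omega) hJ2
    calc _ ≤ (12 * G) * (N : ℝ) ^ (κ / 4) * (N : ℝ) ^ (κ / 4) := by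
          apply mul_le_mul _ q3 (by positivity) (by positivity)
          exact mul_le_mul_of_nonneg_left q2 (by positivity)
      _ ≤ (N : ℝ) ^ (κ / 4) * (N : ℝ) ^ (κ / 4) * (N : ℝ) ^ (κ / 4) := by
          apply mul_le_mul_of_nonneg_right _ (by positivity)
          exact mul_le_mul_of_nonneg_right a4 (by positivity)
      _ = (N : ℝ) ^ (κ / 4 + κ / 4 + κ / 4) := by rw [← Real.rpow_add hN0, ← Real.rpow_add hN0]
      _ ≤ _ := Real.rpow_le_rpow_of_exponent_le hNr (by linarith)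
  have hcard : ∑ _ω : Fin K → Fin (J + 1), 1 / ((J : ℝ) + 1) ^ K = 1 := by
    rw [sum_const, card_univ, Fintype.card_fun, Fintype.card_fin, Fintype.card_fin, nsmul_eq_mul]
    push_cast
    field_simp
  have hbd : ∀ ω : Fin K → Fin (J + 1), |c + ∑ i, (a (ω i) : ℤ)| ≤ ((B + 1 : ℕ) : ℤ) * N := by
    intro ω
    have q1 : ∑ i, (a (ω i) : ℤ) ≤ N := by
      calc ∑ i, (a (ω i) : ℤ) ≤ ∑ _i : Fin K, (a J : ℤ) := by
            apply sum_le_sum
            intro i _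
            exact_mod_cast hm J le_rfl (ω i) (by omega)
        _ = K * a J := by rw [sum_const, card_univ, Fintype.card_fin, nsmul_eq_mul]
        _ ≤ N := by exact_mod_cast hKa
    have q2 : 0 ≤ ∑ i, (a (ω i) : ℤ) := sum_nonneg fun i _ => Int.natCast_nonneg _
    calc |c + ∑ i, (a (ω i) : ℤ)| ≤ |c| + |∑ i, (a (ω i) : ℤ)| := abs_add_le _ _
      _ ≤ B * N + N := add_le_add hc (by rw [abs_of_nonneg q2]; exact q1)
      _ = _ := by push_cast; ring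
  have key := a1 (Fin K → Fin (J + 1)) (fun _ => 1 / ((J : ℝ) + 1) ^ K) (fun ω => c + ∑ i, (a (ω i) : ℤ))
    (fun ω => by positivity) hcard hbd ρ hρN hρ1 hfew'
  have hEE : ρ ^ (1 / 8 : ℝ) * N * ℓ ^ C = N / ℓ ^ U := by
    rw [hρ8, pow_add]
    field_simp
  rw [hEE, sum_const, nsmul_eq_mul, mul_one_div, div_le_iff₀ (by positivity)] at key
  refine key.trans ?_
  calc ρ ^ (1 / 2 : ℝ) * ℓ ^ C * ((J : ℝ) + 1) ^ K ≤ 1 / ℓ ^ (U + C) * ℓ ^ C * ((J : ℝ) + 1) ^ K := by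
        apply mul_le_mul_of_nonneg_right _ (by positivity)
        exact mul_le_mul_of_nonneg_right hρ2 (by positivity)
    _ = _ := by rw [pow_add]; field_simp

end Pool.Agent.Y958.SP
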