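import Pool.Agent.Y958.SP.Sub2
import Pool.Agent.Y958.SP.Few2
import Pool.Agent.Results.MP_122e00_nt.PowerSavingShifts

set_option autoImplicit false

/-! Project SP: common definitions of the results. -/

namespace Pool.Agent.Y958.SP

open Finset Polynomial
open Pool.Agent.Results.MP_122e00_nt.PowerSavingShifts (D e ram κ 𝔖 Density G main κ_eq ram_eq 𝔖_eq D_eq G_eq main_eq exists_P)

/-- The properties (0) of `P` and `T` -/
def Props (r : ℕ) (P : ℕ → ℝ[X]) (T : ℤ → ℝ[X]) : Prop :=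
  (Density r P ∧ (∀ q, 1 ≤ q → (P q).natDegree = r - 1 ∧ (P q).leadingCoeff = κ (r - 1) q / ((r - 1).factorial : ℝ)) ∧
    ∀ ε : ℝ, 0 < ε → ∃ C : ℝ, ∀ q i : ℕ, 1 ≤ q → |(P q).coeff i| ≤ C * (q : ℝ) ^ (ε - 1)) ∧
  (∀ h : ℤ, h ≠ 0 → (∀ u v : ℝ, Summable (fun q : ℕ => (ram (q + 1) h : ℝ) * ((P (q + 1)).eval u * (P (q + 1)).eval v))) ∧
    (∀ u : ℝ, (T h).eval u + (derivative (T h)).eval u = G P h u u) ∧
    (T h).natDegree = 2 * r - 2 ∧ (T h).leadingCoeff = 𝔖 r h / ((r - 1).factorial : ℝ) ^ 2)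

theorem props (t : ℕ) (P : ℕ → ℝ[X]) (hP : Pool.Agent.TH212.PS.HW t P)
    (hlead : ∀ q, 1 ≤ q → (P q).coeff (t + 1) = Pool.Agent.TH212.DV.kap (t + 1) q / ((t + 1).factorial : ℝ)) (hdens : Density (t + 2) P) :
    Props (t + 2) P (Pool.Agent.TH212.PS.Th t P) := by
  have e0 : t + 2 - 1 = t + 1 := by omega
  have e2 : 2 * (t + 2) - 2 = 2 * t + 2 := by omega
  refine ⟨⟨hdens, ?_, ?_⟩, ?_⟩
  · intro q hq
    rw [e0]
    have hk := Pool.Agent.TH212.PS.kap_pos t q hq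
    have hc := hlead q hq
    have hne : (P q).coeff (t + 1) ≠ 0 := by
      rw [hc]
      positivity
    have hd : (P q).natDegree = t + 1 := le_antisymm (hP.deg q) (le_natDegree_of_ne_zero hne)
    refine ⟨hd, ?_⟩
    unfold leadingCoeff
    rw [hd, hc, κ_eq _ _ hq]
  · intro ε hε
    obtain ⟨C, _, h1⟩ := Pool.Agent.TH212.PS.coeff_bound t P hP ε hε
    exact ⟨C, fun q i hq => h1 q hq i⟩
  · intro h hh
    refine ⟨fun u v => ?_, fun u => ?_, ?_, ?_⟩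
    · exact (summable_nat_add_iff 1).2 (Pool.Agent.TH212.PS.series_summable t P hP h hh u v)
    · rw [G_eq t P hP h hh]
      exact Pool.Agent.TH212.PS.Th_eq t P hP h hh u
    · rw [e2]
      exact (Pool.Agent.TH212.PS.Th_full t P hlead h hh).1
    · rw [e0, 𝔖_eq t h hh]
      exact (Pool.Agent.TH212.PS.Th_full t P hlead h hh).2

/-- for all `x ≤ N`: `D_r(x; h)` is the main term up to `E` and, if `|h| ≤ N ^ (1 - η)`, it is `x T_h(log x)` up to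
`E + N ^ (1 - η / 4)` -/
def AsympE (r N : ℕ) (P : ℕ → ℝ[X]) (T : ℤ → ℝ[X]) (E η : ℝ) (h : ℤ) : Prop := ∀ x : ℕ, x ≤ N →
  |D r x h - main P x h| ≤ E ∧
    ((|h| : ℝ) ≤ (N : ℝ) ^ (1 - η) → |D r x h - x * (T h).eval (Real.log x)| ≤ E + (N : ℝ) ^ (1 - η / 4))

theorem asymp_of (t N : ℕ) (P : ℕ → ℝ[X]) (hP : Pool.Agent.TH212.PS.HW t P) (E η : ℝ) (h : ℤ) (hh : h ≠ 0)
    (hg : GoodE t N P E η h) : AsympE (t + 2) N P (Pool.Agent.TH212.PS.Th t P) E η h := by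
  intro x hx
  rw [main_eq t P hP x h hh, D_eq]
  exact hg x hx

end Pool.Agent.Y958.SP
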