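import Pool.Agent.Y958.SP.Ind
import Pool.Agent.Y958.SP.Stm4

set_option autoImplicit false

/-! Project SP: sums of arbitrary independent integers. -/

namespace Pool.Agent.Y958.SP
open Finset Polynomial
open Pool.Agent.H807R2.Dav
open Pool.Agent.TH212.DV
open Pool.Agent.TH212.PS

/-- laws `p i` of independent integers `x i`; for every scale `T j` the sum over `i` of the probabilities that two independent
copies of `x i` differ by `T j` up to the factor `B` is at least `μ` -/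
structure Spread2 (K m J : ℕ) (p : Fin K → Fin m → ℝ) (x : Fin K → Fin m → ℤ) (T : ℕ → ℝ) (B μ : ℝ) : Prop where
  nonneg : ∀ i k, 0 ≤ p i k
  one : ∀ i, ∑ k, p i k = 1
  first : 1 ≤ T 0
  sep : ∀ j, j < J → B * T j < T (j + 1)
  spread : ∀ j, j ≤ J → μ ≤ ∑ i, ∑ k, ∑ l,
    if T j ≤ |((x i k - x i l : ℤ) : ℝ)| ∧ |((x i k - x i l : ℤ) : ℝ)| ≤ B * T j then p i k * p i l else 0

lemma Spread2.pow {K m J : ℕ} {p : Fin K → Fin m → ℝ} {x : Fin K → Fin m → ℤ} {T : ℕ → ℝ} {B μ : ℝ} (hB : 2 ≤ B)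
    (h : Spread2 K m J p x T B μ) : ∀ j, j ≤ J → (2 : ℝ) ^ j ≤ T j := by
  intro j
  induction j with
  | zero => intro _; rw [pow_zero]; exact h.first
  | succ j ih =>
    intro hj
    have h1 := ih (by omega)
    have h2 := h.sep j (by omega)
    have h3 : (0 : ℝ) < 2 ^ j := by positivity
    rw [pow_succ]
    nlinarith

lemma Spread2.one_le {K m J : ℕ} {p : Fin K → Fin m → ℝ} {x : Fin K → Fin m → ℤ} {T : ℕ → ℝ} {B μ : ℝ} (hB : 2 ≤ B)
    (h : Spread2 K m J p x T B μ) : ∀ j, j ≤ J → (1 : ℝ) ≤ T j := fun j hj =>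
  (one_le_pow₀ (by norm_num)).trans (h.pow hB j hj)

theorem few_gen (hPACK : PACK2) (hIND : IND2) (K m J : ℕ) (p : Fin K → Fin m → ℝ) (x : Fin K → Fin m → ℤ) (c : ℤ) (T : ℕ → ℝ)
    (B G μ ρ lam : ℝ) (N : ℕ) (hN : 1 ≤ N) (hB : 2 ≤ B) (hG : 1 ≤ G) (hμ : 0 < μ) (hρ0 : 0 < ρ) (hρ1 : ρ ≤ 1) (hlam : 1 ≤ lam)
    (hs : Spread2 K m J p x T B μ) :
    FewLarge (fun ω : Fin K → Fin m => ∏ i, p i (ω i)) (fun ω => c + ∑ i, x i (ω i)) N ρ
      (2 * ((B * T 0 + 2) * ((N : ℝ) / T J + 2) * (∏ j ∈ (range J).filter (fun j => G < T (j + 1) / T j), (5 * (T (j + 1) / T j) / G)) *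
        ((Real.exp 1 * lam) ^ (16 * ((B * G) ^ 2 + 1) * (Real.log (1 / ρ) / (2 * μ))) * Real.exp (J * (B * G + 3) / lam)))) := by
  intro S hS hsep
  have hT := hs.one_le hB
  obtain ⟨τ', hτ, S', hS', hcard, hσ⟩ := hIND K m J p x c T B μ ρ S hs.nonneg hs.one hμ hρ0
    (fun j hj => by linarith [hT j hj]) (by linarith) hs.sep hs.spread (fun a ha => (hS a ha).2.2)
  have hlo : ∀ j, j ≤ J → T j ≤ τ' j := fun j hj => (hτ j hj).1
  have hhi : ∀ j, j ≤ J → (τ' j : ℝ) ≤ B * T j := fun j hj => (hτ j hj).2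
  have hlog : 0 ≤ Real.log (1 / ρ) := Real.log_nonneg (by rw [le_div_iff₀ hρ0]; linarith)
  have hpack := hPACK J τ' N (B * G) (Real.log (1 / ρ) / (2 * μ)) lam S' hN (by nlinarith) (by positivity) hlam (fun j hj => by
    have h1 := (hT j hj).trans (hlo j hj)
    exact_mod_cast h1) (fun a ha => by
    obtain ⟨h1, h2, _⟩ := hS a (hS' ha)
    exact ⟨h1, h2, hσ a ha⟩) (fun a ha b hb => hsep a (hS' ha) b (hS' hb))
  have hratio : ∀ j, j < J → (τ' (j + 1) : ℝ) / τ' j ≤ B * (T (j + 1) / T j) := by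
    intro j hj
    have h1 := hhi (j + 1) (by omega)
    have h2 := hlo j (by omega)
    have h3 := hT j (by omega)
    have h4 := hT (j + 1) (by omega)
    rw [← mul_div_assoc]
    calc (τ' (j + 1) : ℝ) / τ' j ≤ (B * T (j + 1)) / τ' j := div_le_div_of_nonneg_right h1 (by linarith)
      _ ≤ _ := div_le_div_of_nonneg_left (by positivity) (by linarith) h2
  have hprod : (∏ j ∈ (range J).filter (fun j => B * G < (τ' (j + 1) : ℝ) / τ' j), (5 * ((τ' (j + 1) : ℝ) / τ' j) / (B * G))) ≤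
      ∏ j ∈ (range J).filter (fun j => G < T (j + 1) / T j), (5 * (T (j + 1) / T j) / G) := by
    calc (∏ j ∈ (range J).filter (fun j => B * G < (τ' (j + 1) : ℝ) / τ' j), (5 * ((τ' (j + 1) : ℝ) / τ' j) / (B * G))) ≤
          ∏ j ∈ (range J).filter (fun j => B * G < (τ' (j + 1) : ℝ) / τ' j), (5 * (T (j + 1) / T j) / G) := by
          apply prod_le_prod
          · intro j _; positivity
          · intro j hj
            rw [mem_filter, mem_range] at hj
            have h1 := hratio j hj.1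
            rw [div_le_div_iff₀ (by positivity) (by positivity)]
            calc 5 * ((τ' (j + 1) : ℝ) / τ' j) * G ≤ 5 * (B * (T (j + 1) / T j)) * G := by
                  apply mul_le_mul_of_nonneg_right _ (by positivity)
                  linarith
              _ = _ := by ring
      _ ≤ _ := by
          apply prod_mono
          · intro j hj
            rw [mem_filter, mem_range] at hj ⊢
            refine ⟨hj.1, ?_⟩
            have := lt_of_lt_of_le hj.2 (hratio j hj.1)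
            exact lt_of_mul_lt_mul_left this (by linarith)
          · intro j hj
            rw [mem_filter, mem_range] at hj
            rw [le_div_iff₀ (by positivity)]
            linarith [hj.2]
  have h0 := hT 0 (by omega)
  have hJ := hT J le_rfl
  have e1 : ((τ' 0 : ℝ) + 2) * ((N : ℝ) / τ' J + 2) ≤ (B * T 0 + 2) * ((N : ℝ) / T J + 2) := by
    apply mul_le_mul (by linarith [hhi 0 (by omega)]) _ (by positivity) (by positivity)
    have : (N : ℝ) / τ' J ≤ (N : ℝ) / T J := div_le_div_of_nonneg_left (Nat.cast_nonneg _) (by linarith) (hlo J le_rfl)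
    linarith
  have hcard' : (S.card : ℝ) ≤ 2 * S'.card := by exact_mod_cast hcard
  refine hcard'.trans (mul_le_mul_of_nonneg_left (hpack.trans ?_) (by norm_num))
  apply mul_le_mul_of_nonneg_right _ (by positivity)
  apply mul_le_mul e1 hprod (prod_nonneg fun j _ => by positivity)
  have h5 : 0 ≤ (N : ℝ) / T J := by positivity
  have h6 : 0 ≤ B * T 0 := mul_nonneg (by linarith) (by linarith)
  exact mul_nonneg (by linarith) (by linarith)

open Classical in
theorem ind_gen (hPACK : PACK2) (hIND : IND2) (hPAR : PARU) (hSM : SM) (hM4 : M4) (hM2 : M2) (hID : INCD) (hIM : INCM)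
    (t : ℕ) (P : ℕ → ℝ[X]) (hP : HW t P) : ∃ κ : ℝ, 0 < κ ∧ κ < 1 ∧ ∀ (B U : ℕ), 2 ≤ B → ∃ C : ℝ, 0 < C ∧ ∀ (B₂ : ℕ) (η : ℝ),
    0 < η → η ≤ 1 → ∃ N₀ : ℕ, ∀ N : ℕ, N₀ ≤ N → ∀ (K m J : ℕ) (p : Fin K → Fin m → ℝ) (x : Fin K → Fin m → ℤ) (c : ℤ) (T : ℕ → ℝ) (G μ : ℝ),
    Spread2 K m J p x T B μ → T J ≤ N → (∀ ω : Fin K → Fin m, |c + ∑ i, x i (ω i)| ≤ B₂ * N) → 1 ≤ G →
    C * G ^ 2 * (1 + Real.log G) * Real.log (Real.log N) ≤ μ * Real.log N →
    T 0 * ((N : ℝ) / T J) * ∏ j ∈ (range J).filter (fun j => G < T (j + 1) / T j), (T (j + 1) / T j / G) ≤ (N : ℝ) ^ κ →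
    ∑ ω ∈ univ.filter (fun ω : Fin K → Fin m => c + ∑ i, x i (ω i) ≠ 0 ∧
      ¬ GoodE t N P ((N : ℝ) / Real.log N ^ U) η (c + ∑ i, x i (ω i))), ∏ i, p i (ω i) ≤ 1 / Real.log N ^ U := by
  obtain ⟨κ, hκ0, hκ1, C, hcrit⟩ := crit hSM hM4 hM2 hID hIM t P hP
  refine ⟨κ / 4, by positivity, by linarith, fun B U hB => ?_⟩
  have hBr : (2 : ℝ) ≤ B := by exact_mod_cast hB
  obtain ⟨C₂, hC₂, hpar⟩ := hPAR (κ / 4) B ((8 * (U + C) : ℕ) : ℝ) (by positivity) (by linarith) (Nat.cast_nonneg _)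
  refine ⟨C₂, hC₂, fun B₂ η hη hη1 => ?_⟩
  obtain ⟨n1, h1⟩ := hcrit B₂ η hη hη1
  obtain ⟨n3, h3⟩ := ev_pow (8 * (U + C)) 1 κ hκ0
  obtain ⟨n4, h4⟩ := ev_pow 0 (6 * (B + 2)) (κ / 4) (by positivity)
  obtain ⟨n5, h5⟩ := ev_log 3
  refine ⟨n1 + n3 + n4 + n5 + 3, fun N hN K m J p x c T G μ hs hTN hbd hG hCG hprod => ?_⟩
  have hT := hs.one_le hBr
  have a1 := h1 N (by omega)
  have a3 := h3 N (by omega)
  have a4 := h4 N (by omega)
  have a5 := h5 N (by omega)
  rw [one_mul] at a3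
  rw [pow_zero, mul_one] at a4
  have hN1 : 1 ≤ N := by omega
  have hN0 : (0 : ℝ) < N := by exact_mod_cast hN1
  have hNr : (1 : ℝ) ≤ N := by exact_mod_cast hN1
  have hlog0 : 0 < Real.log N := by linarith
  have hloglog : 0 < Real.log (Real.log N) := Real.log_pos (by linarith)
  have hlogG : 0 ≤ Real.log G := Real.log_nonneg hG
  have hμ : 0 < μ := by
    have q1 : 0 < C₂ * G ^ 2 * (1 + Real.log G) * Real.log (Real.log N) := by positivity
    have q2 : 0 < μ * Real.log N := lt_of_lt_of_le q1 hCG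
    exact lt_of_mul_lt_mul_right (by rw [zero_mul]; exact q2) hlog0.le
  have hJ2 : (J : ℝ) ≤ 2 * Real.log N := by
    have q2 : ((2 : ℝ)) ^ J ≤ N := (hs.pow hBr J le_rfl).trans hTN
    have q3 := Real.log_le_log (by positivity) q2
    rw [Real.log_pow] at q3
    have q4 := Real.log_two_gt_d9
    have q5 : (0 : ℝ) ≤ J := Nat.cast_nonneg _
    nlinarith
  obtain ⟨lam, hlam, a2⟩ := hpar N J G μ (by omega) hJ2 hG hμ hCG
  obtain ⟨ℓ, hℓ⟩ : ∃ ℓ : ℝ, ℓ = Real.log N := ⟨_, rfl⟩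
  rw [← hℓ] at a1 a2 a3 a5 ⊢
  have hℓ1 : 1 ≤ ℓ := by linarith
  have hℓ0 : 0 < ℓ := by linarith
  -- the level
  obtain ⟨ρ, hρ⟩ : ∃ ρ : ℝ, ρ = 1 / ℓ ^ (8 * (U + C)) := ⟨_, rfl⟩
  have hρ0 : 0 < ρ := by rw [hρ]; positivity
  have hρ1 : ρ ≤ 1 := by
    rw [hρ, div_le_one (by positivity)]
    exact one_le_pow₀ hℓ1
  have hρN : (N : ℝ) ^ (-κ) ≤ ρ := by
    rw [hρ, Real.rpow_neg hN0.le, ← one_div]
    exact one_div_le_one_div_of_le (by positivity) a3
  have hρ8 : ρ ^ (1 / 8 : ℝ) = 1 / ℓ ^ (U + C) := by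
    have e1 : ρ = (1 / ℓ ^ (U + C)) ^ 8 := by rw [hρ, div_pow, one_pow, ← pow_mul, mul_comm (U + C) 8]
    rw [e1, ← Real.rpow_natCast, ← Real.rpow_mul (by positivity)]
    norm_num
  have hρ2 : ρ ^ (1 / 2 : ℝ) ≤ 1 / ℓ ^ (U + C) := by
    rw [← hρ8]
    exact Real.rpow_le_rpow_of_exponent_ge hρ0 hρ1 (by norm_num)
  have hlogρ : Real.log (1 / ρ) = ((8 * (U + C) : ℕ) : ℝ) * Real.log ℓ := by
    rw [hρ, one_div_one_div, Real.log_pow]
  have hfew := few_gen hPACK hIND K m J p x c T B (5 * G) μ ρ lam N hN1 hBr (by linarith) hμ hρ0 hρ1 hlam hs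
  rw [hlogρ] at hfew
  have hT0 := hT 0 (by omega)
  have hTJ := hT J le_rfl
  have hfew' : FewLarge (fun ω : Fin K → Fin m => ∏ i, p i (ω i)) (fun ω => c + ∑ i, x i (ω i)) N ρ ((N : ℝ) ^ κ) := by
    intro S hS hsep
    refine (hfew S hS hsep).trans ?_
    have q1 : ∏ j ∈ (range J).filter (fun j => 5 * G < T (j + 1) / T j), (5 * (T (j + 1) / T j) / (5 * G)) ≤
        ∏ j ∈ (range J).filter (fun j => G < T (j + 1) / T j), (T (j + 1) / T j / G) := by
      calc ∏ j ∈ (range J).filter (fun j => 5 * G < T (j + 1) / T j), (5 * (T (j + 1) / T j) / (5 * G)) =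
            ∏ j ∈ (range J).filter (fun j => 5 * G < T (j + 1) / T j), (T (j + 1) / T j / G) := by
            apply prod_congr rfl
            intro j _
            rw [mul_div_mul_left _ _ (by norm_num)]
        _ ≤ _ := by
            apply prod_mono
            · intro j hj
              rw [mem_filter] at hj ⊢
              exact ⟨hj.1, by linarith [hj.2]⟩
            · intro j hj
              rw [mem_filter] at hj
              rw [le_div_iff₀ (by positivity)]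
              linarith [hj.2]
    have hNT : 1 ≤ (N : ℝ) / T J := by rw [le_div_iff₀ (by linarith)]; linarith
    have q2 : ((B : ℝ) * T 0 + 2) * ((N : ℝ) / T J + 2) ≤ (3 * (B + 2)) * (T 0 * ((N : ℝ) / T J)) := by
      have r1 : (B : ℝ) * T 0 + 2 ≤ (B + 2) * T 0 := by nlinarith
      have r2 : (N : ℝ) / T J + 2 ≤ 3 * ((N : ℝ) / T J) := by linarith
      calc ((B : ℝ) * T 0 + 2) * ((N : ℝ) / T J + 2) ≤ ((B + 2) * T 0) * (3 * ((N : ℝ) / T J)) :=
            mul_le_mul r1 r2 (by positivity) (by positivity)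
        _ = _ := by ring
    have q3 : ((B : ℝ) * T 0 + 2) * ((N : ℝ) / T J + 2) *
        ∏ j ∈ (range J).filter (fun j => 5 * G < T (j + 1) / T j), (5 * (T (j + 1) / T j) / (5 * G)) ≤ (3 * (B + 2)) * (N : ℝ) ^ (κ / 4) := by
      calc _ ≤ (3 * (B + 2)) * (T 0 * ((N : ℝ) / T J)) *
            ∏ j ∈ (range J).filter (fun j => G < T (j + 1) / T j), (T (j + 1) / T j / G) := by
              apply mul_le_mul q2 q1 _ (by positivity)
              apply prod_nonneg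
              intro j hj
              rw [mem_filter] at hj
              have : 0 < T (j + 1) / T j := by linarith [hj.2]
              positivity
        _ = (3 * (B + 2)) * (T 0 * ((N : ℝ) / T J) *
            ∏ j ∈ (range J).filter (fun j => G < T (j + 1) / T j), (T (j + 1) / T j / G)) := by ring
        _ ≤ _ := mul_le_mul_of_nonneg_left hprod (by positivity)
    have q4 : 0 ≤ (Real.exp 1 * lam) ^ (16 * (((B : ℝ) * (5 * G)) ^ 2 + 1) * ((((8 * (U + C) : ℕ) : ℝ) * Real.log ℓ) / (2 * μ))) *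
        Real.exp (J * (B * (5 * G) + 3) / lam) := by positivity
    calc _ ≤ 2 * ((3 * (B + 2)) * (N : ℝ) ^ (κ / 4) * (N : ℝ) ^ (κ / 4)) := by
          apply mul_le_mul_of_nonneg_left _ (by norm_num)
          exact mul_le_mul q3 a2 q4 (by positivity)
      _ = (6 * (B + 2)) * ((N : ℝ) ^ (κ / 4) * (N : ℝ) ^ (κ / 4)) := by ring
      _ ≤ (N : ℝ) ^ (κ / 4) * ((N : ℝ) ^ (κ / 4) * (N : ℝ) ^ (κ / 4)) := mul_le_mul_of_nonneg_right a4 (by positivity)
      _ = (N : ℝ) ^ (κ / 4 + (κ / 4 + κ / 4)) := by rw [← Real.rpow_add hN0, ← Real.rpow_add hN0]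
      _ ≤ _ := Real.rpow_le_rpow_of_exponent_le hNr (by linarith)
  have key := a1 (Fin K → Fin m) (fun ω => ∏ i, p i (ω i)) (fun ω => c + ∑ i, x i (ω i))
    (fun ω => prod_nonneg fun i _ => hs.nonneg i _) (prod_sum_one p hs.one) hbd ρ hρN hρ1 hfew'
  have hEE : ρ ^ (1 / 8 : ℝ) * N * ℓ ^ C = N / ℓ ^ U := by
    rw [hρ8, pow_add]
    field_simp
  rw [hEE] at key
  refine key.trans ?_
  calc ρ ^ (1 / 2 : ℝ) * ℓ ^ C ≤ 1 / ℓ ^ (U + C) * ℓ ^ C := mul_le_mul_of_nonneg_right hρ2 (by positivity)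
    _ = _ := by rw [pow_add]; field_simp

end Pool.Agent.Y958.SP
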