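import Pool.Agent.Y958.SP.Crit2
import Pool.Agent.Y958.SP.Stm2

set_option autoImplicit false

/-! Project SP: sums of independent variables. -/

namespace Pool.Agent.Y958.SP
open Finset Polynomial
open Pool.Agent.H807R2.Dav
open Pool.Agent.TH212.DV
open Pool.Agent.TH212.PS

/-- laws `p j` of independent integers `x j`, spread out at the scales `T j` -/
structure Spread (J m : ℕ) (p : Fin (J + 1) → Fin m → ℝ) (x : Fin (J + 1) → Fin m → ℤ) (T : ℕ → ℝ) (B η : ℝ) : Prop where
  nonneg : ∀ j k, 0 ≤ p j k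
  one : ∀ j, ∑ k, p j k = 1
  spread : ∀ j : Fin (J + 1), η ≤ ∑ k, ∑ l,
    if T j ≤ |((x j k - x j l : ℤ) : ℝ)| ∧ |((x j k - x j l : ℤ) : ℝ)| ≤ B * T j then p j k * p j l else 0

lemma prod_sum_one {J m : ℕ} (p : Fin J → Fin m → ℝ) (h1 : ∀ j, ∑ k, p j k = 1) :
    ∑ ω : Fin J → Fin m, ∏ j, p j (ω j) = 1 := by
  have := (Finset.prod_univ_sum (fun _ : Fin J => (univ : Finset (Fin m))) (fun j k => p j k))
  rw [Fintype.piFinset_univ] at this
  rw [← this]
  simp [h1]

lemma prod_mono (s u : Finset ℕ) (f : ℕ → ℝ) (hsu : s ⊆ u) (hf : ∀ j ∈ u, 1 ≤ f j) : ∏ j ∈ s, f j ≤ ∏ j ∈ u, f j := by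
  rw [← prod_sdiff hsu]
  apply le_mul_of_one_le_left (prod_nonneg fun j hj => by linarith [hf j (hsu hj)])
  have h1 : ∏ j ∈ u \ s, (1 : ℝ) ≤ ∏ j ∈ u \ s, f j := prod_le_prod (fun _ _ => by norm_num) (fun j hj => hf j (mem_sdiff.1 hj).1)
  rw [prod_const_one] at h1
  exact h1

theorem few_ind (hPACK : PACK2) (hIND : IND) (J m : ℕ) (p : Fin (J + 1) → Fin m → ℝ) (x : Fin (J + 1) → Fin m → ℤ) (c : ℤ) (T : ℕ → ℝ)
    (B G η ρ lam : ℝ) (N : ℕ) (hN : 1 ≤ N) (hB : 1 ≤ B) (hG : 1 ≤ G) (hη : 0 < η) (hρ0 : 0 < ρ) (hρ1 : ρ ≤ 1) (hlam : 1 ≤ lam)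
    (hT : ∀ j, j ≤ J → 1 ≤ T j) (hs : Spread J m p x T B η) :
    FewLarge (fun ω : Fin (J + 1) → Fin m => ∏ j, p j (ω j)) (fun ω => c + ∑ j, x j (ω j)) N ρ
      (2 * ((B * T 0 + 2) * ((N : ℝ) / T J + 2) * (∏ j ∈ (range J).filter (fun j => G < T (j + 1) / T j), (5 * (T (j + 1) / T j) / G)) *
        ((Real.exp 1 * lam) ^ (16 * ((B * G) ^ 2 + 1) * (Real.log (1 / ρ) / (2 * η))) * Real.exp (J * (B * G + 3) / lam)))) := by
  intro S hS hsep
  obtain ⟨τ, hτ, S', hS', hcard, hσ⟩ := hIND (J + 1) m p x c (fun j => T j) B η ρ S hs.nonneg hs.one hη hρ0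
    (fun j => by linarith [hT j (by omega)]) hs.spread (fun a ha => (hS a ha).2.2)
  obtain ⟨τ', hτ'⟩ : ∃ τ' : ℕ → ℕ, τ' = fun j => if h : j < J + 1 then τ ⟨j, h⟩ else 1 := ⟨_, rfl⟩
  have hττ : ∀ j (h : j < J + 1), τ' j = τ ⟨j, h⟩ := fun j h => by rw [hτ']; simp [h]
  have hlo : ∀ j, j ≤ J → T j ≤ τ' j := fun j hj => by
    rw [hττ j (by omega)]
    exact (hτ ⟨j, by omega⟩).1
  have hhi : ∀ j, j ≤ J → (τ' j : ℝ) ≤ B * T j := fun j hj => by
    rw [hττ j (by omega)]
    exact (hτ ⟨j, by omega⟩).2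
  have hlog : 0 ≤ Real.log (1 / ρ) := Real.log_nonneg (by rw [le_div_iff₀ hρ0]; linarith)
  have hpack := hPACK J τ' N (B * G) (Real.log (1 / ρ) / (2 * η)) lam S' hN (by nlinarith) (by positivity) hlam (fun j hj => by
    have h1 := (hT j hj).trans (hlo j hj)
    exact_mod_cast h1) (fun a ha => by
    obtain ⟨h1, h2, _⟩ := hS a (hS' ha)
    refine ⟨h1, h2, ?_⟩
    refine le_trans (le_of_eq ?_) (hσ a ha)
    rw [← Fin.sum_univ_eq_sum_range (fun j => nn (a * τ' j) ^ 2)]
    apply sum_congr rfl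
    intro j _
    rw [hττ j j.2]) (fun a ha b hb => hsep a (hS' ha) b (hS' hb))
  have hratio : ∀ j, j < J → (τ' (j + 1) : ℝ) / τ' j ≤ B * (T (j + 1) / T j) := by
    intro j hj
    have h1 := hhi (j + 1) (by omega)
    have h2 := hlo j (by omega)
    have h3 := hT j (by omega)
    have h4 := hT (j + 1) (by omega)
    rw [← mul_div_assoc]
    calc (τ' (j + 1) : ℝ) / τ' j ≤ (B * T (j + 1)) / τ' j := div_le_div_of_nonneg_right h1 (by linarith)
      _ ≤ _ := div_le_div_of_nonneg_left (by positivity) (by linarith) h2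
  have hprod : (∏ j ∈ (range J).filter (fun j => B * G < (τ' (j + 1) : ℝ) / τ' j), (5 * ((τ' (j + 1) : ℝ) / τ' j) / (B * G))) ≤
      ∏ j ∈ (range J).filter (fun j => G < T (j + 1) / T j), (5 * (T (j + 1) / T j) / G) := by
    calc (∏ j ∈ (range J).filter (fun j => B * G < (τ' (j + 1) : ℝ) / τ' j), (5 * ((τ' (j + 1) : ℝ) / τ' j) / (B * G))) ≤
          ∏ j ∈ (range J).filter (fun j => B * G < (τ' (j + 1) : ℝ) / τ' j), (5 * (T (j + 1) / T j) / G) := by
          apply prod_le_prod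
          · intro j _; positivity
          · intro j hj
            rw [mem_filter, mem_range] at hj
            have h1 := hratio j hj.1
            rw [div_le_div_iff₀ (by positivity) (by positivity)]
            calc 5 * ((τ' (j + 1) : ℝ) / τ' j) * G ≤ 5 * (B * (T (j + 1) / T j)) * G := by
                  apply mul_le_mul_of_nonneg_right _ (by positivity)
                  linarith
              _ = _ := by ring
      _ ≤ _ := by
          apply prod_mono
          · intro j hj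
            rw [mem_filter, mem_range] at hj ⊢
            refine ⟨hj.1, ?_⟩
            have := lt_of_lt_of_le hj.2 (hratio j hj.1)
            exact lt_of_mul_lt_mul_left this (by linarith)
          · intro j hj
            rw [mem_filter, mem_range] at hj
            rw [le_div_iff₀ (by positivity)]
            linarith [hj.2]
  have h0 := hT 0 (by omega)
  have hJ := hT J le_rfl
  have e1 : ((τ' 0 : ℝ) + 2) * ((N : ℝ) / τ' J + 2) ≤ (B * T 0 + 2) * ((N : ℝ) / T J + 2) := by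
    apply mul_le_mul (by linarith [hhi 0 (by omega)]) _ (by positivity) (by positivity)
    have : (N : ℝ) / τ' J ≤ (N : ℝ) / T J := div_le_div_of_nonneg_left (Nat.cast_nonneg _) (by linarith) (hlo J le_rfl)
    linarith
  have hcard' : (S.card : ℝ) ≤ 2 * S'.card := by exact_mod_cast hcard
  refine hcard'.trans (mul_le_mul_of_nonneg_left (hpack.trans ?_) (by norm_num))
  apply mul_le_mul_of_nonneg_right _ (by positivity)
  apply mul_le_mul e1 hprod (prod_nonneg fun j _ => by positivity)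
  have h5 : 0 ≤ (N : ℝ) / T J := by positivity
  have h6 : 0 ≤ B * T 0 := mul_nonneg (by linarith) (by linarith)
  exact mul_nonneg (by linarith) (by linarith)

end Pool.Agent.Y958.SP
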