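import Pool.Agent.Y958.SP.Ind

set_option autoImplicit false

/-! Project SP: sums of independent variables, powers of logarithms. -/

namespace Pool.Agent.Y958.SP
open Finset Polynomial
open Pool.Agent.H807R2.Dav
open Pool.Agent.TH212.DV
open Pool.Agent.TH212.PS

open Classical in
theorem ind_log (hPACK : PACK2) (hIND : IND) (hPAR : PARL2) (hSM : SM) (hM4 : M4) (hM2 : M2) (hID : INCD) (hIM : INCM)
    (t : ℕ) (P : ℕ → ℝ[X]) (hP : HW t P) : ∃ κ : ℝ, 0 < κ ∧ κ ≤ 1 ∧ ∀ (B U : ℕ) (η₀ δ A η : ℝ), 1 ≤ B → 0 < η₀ → 0 < δ → δ < 1 / 2 → 0 ≤ A →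
    0 < η → η ≤ 1 → ∃ N₀ : ℕ, ∀ N : ℕ, N₀ ≤ N → ∀ (J m : ℕ) (p : Fin (J + 1) → Fin m → ℝ) (x : Fin (J + 1) → Fin m → ℤ) (c : ℤ) (T : ℕ → ℝ),
    Spread J m p x T B η₀ → (∀ j, j ≤ J → 1 ≤ T j) → T J ≤ N → (J : ℝ) ≤ Real.log N ^ A →
    (∀ ω : Fin (J + 1) → Fin m, |c + ∑ j, x j (ω j)| ≤ B * N) →
    T 0 * ((N : ℝ) / T J) * ∏ j ∈ (range J).filter (fun j => Real.log N ^ (1 / 2 - δ) < T (j + 1) / T j),
      (T (j + 1) / T j / Real.log N ^ (1 / 2 - δ)) ≤ (N : ℝ) ^ κ →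
    ∑ ω ∈ univ.filter (fun ω : Fin (J + 1) → Fin m => c + ∑ j, x j (ω j) ≠ 0 ∧
      ¬ GoodE t N P ((N : ℝ) / Real.log N ^ U) η (c + ∑ j, x j (ω j))), ∏ j, p j (ω j) ≤ 1 / Real.log N ^ U := by
  obtain ⟨κ, hκ0, hκ1, C, hcrit⟩ := crit hSM hM4 hM2 hID hIM t P hP
  refine ⟨κ / 4, by positivity, by linarith, fun B U η₀ δ A η hB hη₀ hδ hδ2 hA hη hη1 => ?_⟩
  have hBr : (1 : ℝ) ≤ B := by exact_mod_cast hB
  obtain ⟨n1, h1⟩ := hcrit B η hη hη1
  obtain ⟨n2, h2⟩ := hPAR (κ / 4) η₀ (δ / 2) A B ((8 * (U + C) : ℕ) : ℝ) (by positivity) hη₀ (by positivity) hA hBr (Nat.cast_nonneg _)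
  obtain ⟨n3, h3⟩ := ev_pow (8 * (U + C)) 1 κ hκ0
  obtain ⟨n4, h4⟩ := ev_pow 0 (6 * (B + 2)) (κ / 4) (by positivity)
  obtain ⟨n5, h5⟩ := ev_log (5 ^ (2 / δ) + 1)
  refine ⟨n1 + n2 + n3 + n4 + n5 + 2, fun N hN J m p x c T hs hT hTN hJ hbd hprod => ?_⟩
  have a1 := h1 N (by omega)
  have a3 := h3 N (by omega)
  have a4 := h4 N (by omega)
  have a5 := h5 N (by omega)
  rw [one_mul] at a3
  rw [pow_zero, mul_one] at a4
  obtain ⟨lam, hlam, a2⟩ := h2 N (by omega) J hJ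
  have hN1 : 1 ≤ N := by omega
  have hN0 : (0 : ℝ) < N := by exact_mod_cast hN1
  have hNr : (1 : ℝ) ≤ N := by exact_mod_cast hN1
  obtain ⟨ℓ, hℓ⟩ : ∃ ℓ : ℝ, ℓ = Real.log N := ⟨_, rfl⟩
  rw [← hℓ] at a1 a2 a3 a5 hJ hprod ⊢
  have h5δ : (0 : ℝ) < 5 ^ (2 / δ) := by positivity
  have hℓ1 : 1 ≤ ℓ := by linarith
  have hℓ0 : 0 < ℓ := by linarith
  -- the level
  obtain ⟨ρ, hρ⟩ : ∃ ρ : ℝ, ρ = 1 / ℓ ^ (8 * (U + C)) := ⟨_, rfl⟩
  have hρ0 : 0 < ρ := by rw [hρ]; positivity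
  have hρ1 : ρ ≤ 1 := by
    rw [hρ, div_le_one (by positivity)]
    exact one_le_pow₀ hℓ1
  have hρN : (N : ℝ) ^ (-κ) ≤ ρ := by
    rw [hρ, Real.rpow_neg hN0.le, ← one_div]
    exact one_div_le_one_div_of_le (by positivity) a3
  have hρ8 : ρ ^ (1 / 8 : ℝ) = 1 / ℓ ^ (U + C) := by
    have e1 : ρ = (1 / ℓ ^ (U + C)) ^ 8 := by rw [hρ, div_pow, one_pow, ← pow_mul, mul_comm (U + C) 8]
    rw [e1, ← Real.rpow_natCast, ← Real.rpow_mul (by positivity)]
    norm_num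
  have hρ2 : ρ ^ (1 / 2 : ℝ) ≤ 1 / ℓ ^ (U + C) := by
    rw [← hρ8]
    exact Real.rpow_le_rpow_of_exponent_ge hρ0 hρ1 (by norm_num)
  have hlogρ : Real.log (1 / ρ) = ((8 * (U + C) : ℕ) : ℝ) * Real.log ℓ := by
    rw [hρ, one_div_one_div, Real.log_pow]
  -- few large coefficients
  obtain ⟨g, hg⟩ : ∃ g : ℝ, g = ℓ ^ (1 / 2 - δ) := ⟨_, rfl⟩
  obtain ⟨G, hG⟩ : ∃ G : ℝ, G = 1 + ℓ ^ (1 / 2 - δ / 2) := ⟨_, rfl⟩
  rw [← hg] at hprod
  rw [← hG] at a2
  have hg1 : 1 ≤ g := by rw [hg]; exact Real.one_le_rpow hℓ1 (by linarith)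
  have hG1 : 1 ≤ G := by
    rw [hG]
    have : 0 ≤ ℓ ^ (1 / 2 - δ / 2) := by positivity
    linarith
  have hgG : 5 * g ≤ G := by
    have q1 : (5 : ℝ) ≤ ℓ ^ (δ / 2) := by
      calc (5 : ℝ) = (5 ^ (2 / δ)) ^ (δ / 2) := by
            rw [← Real.rpow_mul (by norm_num), show 2 / δ * (δ / 2) = 1 by field_simp, Real.rpow_one]
        _ ≤ _ := Real.rpow_le_rpow h5δ.le (by linarith) (by positivity)
    calc 5 * g ≤ ℓ ^ (δ / 2) * g := mul_le_mul_of_nonneg_right q1 (by linarith)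
      _ = ℓ ^ (1 / 2 - δ / 2) := by rw [hg, ← Real.rpow_add hℓ0]; congr 1; ring
      _ ≤ _ := by rw [hG]; linarith
  have hfew := few_ind hPACK hIND J m p x c T B G η₀ ρ lam N hN1 hBr hG1 hη₀ hρ0 hρ1 hlam hT hs
  rw [hlogρ] at hfew
  have hT0 := hT 0 (by omega)
  have hTJ := hT J le_rfl
  have hfew' : FewLarge (fun ω : Fin (J + 1) → Fin m => ∏ j, p j (ω j)) (fun ω => c + ∑ j, x j (ω j)) N ρ ((N : ℝ) ^ κ) := by
    intro S hS hsep
    refine (hfew S hS hsep).trans ?_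
    have q1 : ∏ j ∈ (range J).filter (fun j => G < T (j + 1) / T j), (5 * (T (j + 1) / T j) / G) ≤
        ∏ j ∈ (range J).filter (fun j => g < T (j + 1) / T j), (T (j + 1) / T j / g) := by
      calc ∏ j ∈ (range J).filter (fun j => G < T (j + 1) / T j), (5 * (T (j + 1) / T j) / G) ≤
            ∏ j ∈ (range J).filter (fun j => G < T (j + 1) / T j), (T (j + 1) / T j / g) := by
            apply prod_le_prod
            · intro j hj
              rw [mem_filter, mem_range] at hj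
              have : 0 < T (j + 1) / T j := by linarith [hj.2]
              positivity
            · intro j hj
              rw [mem_filter, mem_range] at hj
              rw [div_le_div_iff₀ (by positivity) (by positivity)]
              have : 0 < T (j + 1) / T j := by linarith [hj.2]
              nlinarith
        _ ≤ _ := by
            apply prod_mono
            · intro j hj
              rw [mem_filter] at hj ⊢
              exact ⟨hj.1, by linarith [hj.2]⟩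
            · intro j hj
              rw [mem_filter] at hj
              rw [le_div_iff₀ (by positivity)]
              linarith [hj.2]
    have q0 : 0 ≤ ∏ j ∈ (range J).filter (fun j => g < T (j + 1) / T j), (T (j + 1) / T j / g) := prod_nonneg fun j hj => by
      rw [mem_filter] at hj
      have : 0 < T (j + 1) / T j := by linarith [hj.2]
      positivity
    have hNT : 1 ≤ (N : ℝ) / T J := by rw [le_div_iff₀ (by linarith)]; linarith
    have q2 : ((B : ℝ) * T 0 + 2) * ((N : ℝ) / T J + 2) ≤ (3 * (B + 2)) * (T 0 * ((N : ℝ) / T J)) := by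
      have r1 : (B : ℝ) * T 0 + 2 ≤ (B + 2) * T 0 := by nlinarith
      have r2 : (N : ℝ) / T J + 2 ≤ 3 * ((N : ℝ) / T J) := by linarith
      calc ((B : ℝ) * T 0 + 2) * ((N : ℝ) / T J + 2) ≤ ((B + 2) * T 0) * (3 * ((N : ℝ) / T J)) :=
            mul_le_mul r1 r2 (by positivity) (by positivity)
        _ = _ := by ring
    have q3 : ((B : ℝ) * T 0 + 2) * ((N : ℝ) / T J + 2) *
        ∏ j ∈ (range J).filter (fun j => G < T (j + 1) / T j), (5 * (T (j + 1) / T j) / G) ≤ (3 * (B + 2)) * (N : ℝ) ^ (κ / 4) := by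
      calc _ ≤ (3 * (B + 2)) * (T 0 * ((N : ℝ) / T J)) *
            ∏ j ∈ (range J).filter (fun j => g < T (j + 1) / T j), (T (j + 1) / T j / g) := by
              apply mul_le_mul q2 q1 _ (by positivity)
              apply prod_nonneg
              intro j hj
              rw [mem_filter] at hj
              have : 0 < T (j + 1) / T j := by linarith [hj.2]
              positivity
        _ = (3 * (B + 2)) * (T 0 * ((N : ℝ) / T J) *
            ∏ j ∈ (range J).filter (fun j => g < T (j + 1) / T j), (T (j + 1) / T j / g)) := by ring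
        _ ≤ _ := mul_le_mul_of_nonneg_left hprod (by positivity)
    have q4 : 0 ≤ (Real.exp 1 * lam) ^ (16 * (((B : ℝ) * G) ^ 2 + 1) * ((((8 * (U + C) : ℕ) : ℝ) * Real.log ℓ) / (2 * η₀))) *
        Real.exp (J * (B * G + 3) / lam) := by positivity
    calc _ ≤ 2 * ((3 * (B + 2)) * (N : ℝ) ^ (κ / 4) * (N : ℝ) ^ (κ / 4)) := by
          apply mul_le_mul_of_nonneg_left _ (by norm_num)
          exact mul_le_mul q3 a2 q4 (by positivity)
      _ = (6 * (B + 2)) * ((N : ℝ) ^ (κ / 4) * (N : ℝ) ^ (κ / 4)) := by ring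
      _ ≤ (N : ℝ) ^ (κ / 4) * ((N : ℝ) ^ (κ / 4) * (N : ℝ) ^ (κ / 4)) := mul_le_mul_of_nonneg_right a4 (by positivity)
      _ = (N : ℝ) ^ (κ / 4 + (κ / 4 + κ / 4)) := by rw [← Real.rpow_add hN0, ← Real.rpow_add hN0]
      _ ≤ _ := Real.rpow_le_rpow_of_exponent_le hNr (by linarith)
  have key := a1 (Fin (J + 1) → Fin m) (fun ω => ∏ j, p j (ω j)) (fun ω => c + ∑ j, x j (ω j))
    (fun ω => prod_nonneg fun j _ => hs.nonneg j _) (prod_sum_one p hs.one) hbd ρ hρN hρ1 hfew'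
  have hEE : ρ ^ (1 / 8 : ℝ) * N * ℓ ^ C = N / ℓ ^ U := by
    rw [hρ8, pow_add]
    field_simp
  rw [hEE] at key
  refine key.trans ?_
  calc ρ ^ (1 / 2 : ℝ) * ℓ ^ C ≤ 1 / ℓ ^ (U + C) * ℓ ^ C := mul_le_mul_of_nonneg_right hρ2 (by positivity)
    _ = _ := by rw [pow_add]; field_simp

end Pool.Agent.Y958.SP
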