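import Pool.Agent.Y958.SP.Log

set_option autoImplicit false

/-! Project SP: subset sums. -/

namespace Pool.Agent.Y958.SP
open Finset Polynomial

/-- subsets as functions to `Fin 2` -/
def fs {n : ℕ} (ω : Fin n → Fin 2) : Finset (Fin n) := univ.filter (fun j => ω j = 1)

lemma sum_fs {n : ℕ} (s : Fin n → ℕ) (ω : Fin n → Fin 2) :
    ∑ j, (if ω j = 1 then (s j : ℤ) else 0) = ∑ j ∈ fs ω, (s j : ℤ) := by
  unfold fs
  rw [sum_filter]

lemma fs_bij {n : ℕ} : Function.Bijective (fs : (Fin n → Fin 2) → Finset (Fin n)) := by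
  constructor
  · intro ω ω' h
    funext j
    have h1 : j ∈ fs ω ↔ j ∈ fs ω' := by rw [h]
    unfold fs at h1
    rw [mem_filter, mem_filter] at h1
    have h2 : ω j = 1 ↔ ω' j = 1 := by simpa using h1
    have h3 : ∀ k : Fin 2, k ≠ 1 → k = 0 := by decide
    by_cases h4 : ω j = 1
    · rw [h4, h2.1 h4]
    · rw [h3 _ h4, h3 _ (fun h5 => h4 (h2.2 h5))]
  · intro I
    refine ⟨fun j => if j ∈ I then 1 else 0, ?_⟩
    unfold fs
    ext j
    rw [mem_filter]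
    by_cases h : j ∈ I
    · simp [h]
    · simp [h]

lemma spread_half (J : ℕ) (s : ℕ → ℕ) (B : ℝ) (hB : 1 ≤ B) (hs : ∀ j, j ≤ J → 1 ≤ s j) :
    Spread J 2 (fun _ _ => 1 / 2) (fun (j : Fin (J + 1)) k => if k = 1 then (s j : ℤ) else 0) (fun j => (s j : ℝ)) B (1 / 2) := by
  refine ⟨fun _ _ => by norm_num, fun _ => by simp, fun j => ?_⟩
  have hj := hs j (by omega)
  have h1 : (1 : ℝ) ≤ s j := by exact_mod_cast hj
  rw [Fin.sum_univ_two, Fin.sum_univ_two, Fin.sum_univ_two]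
  have e0 : (0 : Fin 2) ≠ 1 := by decide
  simp only [if_true, if_neg e0, sub_self, sub_zero, zero_sub, Int.cast_zero, abs_zero, Int.cast_neg, abs_neg, Int.cast_natCast]
  have c1 : ¬ ((s j : ℝ) ≤ 0 ∧ (0 : ℝ) ≤ B * s j) := by
    rintro ⟨h, _⟩
    linarith
  have c2 : (s j : ℝ) ≤ |(s j : ℝ)| ∧ |(s j : ℝ)| ≤ B * s j := by
    rw [abs_of_nonneg (by linarith)]
    exact ⟨le_rfl, by nlinarith⟩
  rw [if_neg c1, if_pos c2]
  norm_num

open Classical in
lemma half_card (J : ℕ) (s : ℕ → ℕ) (c : ℤ) (Q : ℤ → Prop) :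
    ∑ ω ∈ univ.filter (fun ω : Fin (J + 1) → Fin 2 => Q (c + ∑ j, (if ω j = 1 then (s j : ℤ) else 0))), ∏ _j : Fin (J + 1), (1 / 2 : ℝ) =
      ((univ.filter (fun I : Finset (Fin (J + 1)) => Q (c + ∑ j ∈ I, (s j : ℤ)))).card : ℝ) / 2 ^ (J + 1) := by
  rw [sum_const, nsmul_eq_mul, prod_const, card_univ, Fintype.card_fin, one_div, inv_pow, ← div_eq_mul_inv]
  congr 2
  apply card_bij (fun ω _ => fs ω)
  · intro ω hω
    rw [mem_filter] at hω ⊢
    refine ⟨mem_univ _, ?_⟩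
    rw [← sum_fs (fun j : Fin (J + 1) => s j)]
    exact hω.2
  · intro ω _ ω' _ h
    exact fs_bij.1 h
  · intro I hI
    obtain ⟨ω, rfl⟩ := fs_bij.2 I
    refine ⟨ω, ?_, rfl⟩
    rw [mem_filter] at hI ⊢
    refine ⟨mem_univ _, ?_⟩
    have := sum_fs (fun j : Fin (J + 1) => s j) ω
    rw [this]
    exact hI.2

end Pool.Agent.Y958.SP
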