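import Pool.Agent.Y958.SP.Gen

set_option autoImplicit false

/-! Project SP: subset sums. -/

namespace Pool.Agent.Y958.SP
open Finset Polynomial
open Pool.Agent.TH212.PS

/-- subsets as functions to `Fin 2` -/
def fs {n : ℕ} (ω : Fin n → Fin 2) : Finset (Fin n) := univ.filter (fun j => ω j = 1)

lemma sum_fs {n : ℕ} (s : Fin n → ℕ) (ω : Fin n → Fin 2) :
    ∑ j, (if ω j = 1 then (s j : ℤ) else 0) = ∑ j ∈ fs ω, (s j : ℤ) := by
  unfold fs
  rw [sum_filter]

lemma fs_bij {n : ℕ} : Function.Bijective (fs : (Fin n → Fin 2) → Finset (Fin n)) := by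
  constructor
  · intro ω ω' h
    funext j
    have h1 : j ∈ fs ω ↔ j ∈ fs ω' := by rw [h]
    unfold fs at h1
    rw [mem_filter, mem_filter] at h1
    have h2 : ω j = 1 ↔ ω' j = 1 := by simpa using h1
    have h3 : ∀ k : Fin 2, k ≠ 1 → k = 0 := by decide
    by_cases h4 : ω j = 1
    · rw [h4, h2.1 h4]
    · rw [h3 _ h4, h3 _ (fun h5 => h4 (h2.2 h5))]
  · intro I
    refine ⟨fun j => if j ∈ I then 1 else 0, ?_⟩
    unfold fs
    ext j
    rw [mem_filter]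
    by_cases h : j ∈ I
    · simp [h]
    · simp [h]

open Classical in
lemma half_card (J : ℕ) (s : ℕ → ℕ) (c : ℤ) (Q : ℤ → Prop) :
    ∑ ω ∈ univ.filter (fun ω : Fin (J + 1) → Fin 2 => Q (c + ∑ j, (if ω j = 1 then (s j : ℤ) else 0))), ∏ _j : Fin (J + 1), (1 / 2 : ℝ) =
      ((univ.filter (fun I : Finset (Fin (J + 1)) => Q (c + ∑ j ∈ I, (s j : ℤ)))).card : ℝ) / 2 ^ (J + 1) := by
  rw [sum_const, nsmul_eq_mul, prod_const, card_univ, Fintype.card_fin, one_div, inv_pow, ← div_eq_mul_inv]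
  congr 2
  apply card_bij (fun ω _ => fs ω)
  · intro ω hω
    rw [mem_filter] at hω ⊢
    refine ⟨mem_univ _, ?_⟩
    rw [← sum_fs (fun j : Fin (J + 1) => s j)]
    exact hω.2
  · intro ω _ ω' _ h
    exact fs_bij.1 h
  · intro I hI
    obtain ⟨ω, rfl⟩ := fs_bij.2 I
    refine ⟨ω, ?_, rfl⟩
    rw [mem_filter] at hI ⊢
    refine ⟨mem_univ _, ?_⟩
    have := sum_fs (fun j : Fin (J + 1) => s j) ω
    rw [this]
    exact hI.2

lemma spread_half (J : ℕ) (s : ℕ → ℕ) (h0 : 1 ≤ s 0) (hs : ∀ j, j < J → 2 * s j < s (j + 1)) :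
    Spread2 (J + 1) 2 J (fun _ _ => 1 / 2) (fun (j : Fin (J + 1)) k => if k = 1 then (s j : ℤ) else 0) (fun j => (s j : ℝ)) 2 (1 / 2) := by
  have hpos : ∀ j, j ≤ J → 1 ≤ s j := by
    intro j
    induction j with
    | zero => intro _; exact h0
    | succ j ih => intro hj; have := hs j (by omega); omega
  refine ⟨fun _ _ => by norm_num, fun _ => by simp, by exact_mod_cast h0, fun j hj => by exact_mod_cast hs j hj, fun j hj => ?_⟩
  have hj1 := hpos j hj
  have h1 : (1 : ℝ) ≤ s j := by exact_mod_cast hj1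
  have h2 : (1 / 2 : ℝ) ≤ ∑ k : Fin 2, ∑ l : Fin 2, if (s j : ℝ) ≤ |(((if k = 1 then (s j : ℤ) else 0) - (if l = 1 then (s j : ℤ) else 0) : ℤ) : ℝ)| ∧
      |(((if k = 1 then (s j : ℤ) else 0) - (if l = 1 then (s j : ℤ) else 0) : ℤ) : ℝ)| ≤ 2 * s j then (1 / 2 : ℝ) * (1 / 2) else 0 := by
    rw [Fin.sum_univ_two, Fin.sum_univ_two, Fin.sum_univ_two]
    have e0 : (0 : Fin 2) ≠ 1 := by decide
    simp only [if_true, if_neg e0, sub_self, sub_zero, zero_sub, Int.cast_zero, abs_zero, Int.cast_neg, abs_neg, Int.cast_natCast]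
    have c1 : ¬ ((s j : ℝ) ≤ 0 ∧ (0 : ℝ) ≤ 2 * s j) := by
      rintro ⟨h, _⟩
      linarith
    have c2 : (s j : ℝ) ≤ |(s j : ℝ)| ∧ |(s j : ℝ)| ≤ 2 * s j := by
      rw [abs_of_nonneg (by linarith)]
      exact ⟨le_rfl, by nlinarith⟩
    rw [if_neg c1, if_pos c2]
    norm_num
  refine h2.trans ?_
  have h3 := single_le_sum (f := fun i : Fin (J + 1) => ∑ k : Fin 2, ∑ l : Fin 2,
    if (s j : ℝ) ≤ |(((if k = 1 then (s i : ℤ) else 0) - (if l = 1 then (s i : ℤ) else 0) : ℤ) : ℝ)| ∧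
      |(((if k = 1 then (s i : ℤ) else 0) - (if l = 1 then (s i : ℤ) else 0) : ℤ) : ℝ)| ≤ 2 * s j then (1 / 2 : ℝ) * (1 / 2) else 0)
    (fun i _ => sum_nonneg fun k _ => sum_nonneg fun l _ => by split_ifs <;> norm_num) (mem_univ (⟨j, by omega⟩ : Fin (J + 1)))
  exact h3

lemma sum_le_two (J : ℕ) (s : ℕ → ℕ) (hs : ∀ j, j < J → 2 * s j < s (j + 1)) : ∀ j, j ≤ J → ∑ i ∈ range (j + 1), s i ≤ 2 * s j := by
  intro j
  induction j with
  | zero => intro _; rw [zero_add, sum_range_one]; omega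
  | succ j ih =>
    intro hj
    rw [sum_range_succ]
    have h1 := ih (by omega)
    have h2 := hs j (by omega)
    omega

open Classical in
theorem sub_sums (hPACK : PACK2) (hIND : IND2) (hPAR : PARU) (hSM : SM) (hM4 : M4) (hM2 : M2) (hID : INCD) (hIM : INCM)
    (t : ℕ) (P : ℕ → ℝ[X]) (hP : HW t P) : ∃ κ : ℝ, 0 < κ ∧ κ < 1 ∧ ∀ U : ℕ, ∃ C : ℝ, 0 < C ∧ ∀ (B : ℕ) (η : ℝ),
    0 < η → η ≤ 1 → ∃ N₀ : ℕ, ∀ N : ℕ, N₀ ≤ N → ∀ (J : ℕ) (s : ℕ → ℕ) (c : ℤ) (G : ℝ),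
    1 ≤ s 0 → (∀ j, j < J → 2 * s j < s (j + 1) ∧ (s (j + 1) : ℝ) ≤ G * s j) → s J ≤ N → |c| ≤ B * N → 1 ≤ G →
    C * G ^ 2 * (1 + Real.log G) * Real.log (Real.log N) ≤ Real.log N → (s 0 : ℝ) * ((N : ℝ) / s J) ≤ (N : ℝ) ^ κ →
    ((univ.filter (fun I : Finset (Fin (J + 1)) => c + ∑ j ∈ I, (s j : ℤ) ≠ 0 ∧
      ¬ GoodE t N P ((N : ℝ) / Real.log N ^ U) η (c + ∑ j ∈ I, (s j : ℤ)))).card : ℝ) ≤ 2 ^ (J + 1) / Real.log N ^ U := by
  obtain ⟨κ, hκ0, hκ1, h⟩ := ind_gen hPACK hIND hPAR hSM hM4 hM2 hID hIM t P hP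
  refine ⟨κ, hκ0, hκ1, fun U => ?_⟩
  obtain ⟨C, hC, h⟩ := h 2 U le_rfl
  refine ⟨2 * C, by positivity, fun B η hη hη1 => ?_⟩
  obtain ⟨N₀, h⟩ := h (B + 2) η hη hη1
  refine ⟨N₀, fun N hN J s c G hs0 hs hsN hc hG hCG hprod => ?_⟩
  have hs2 : ∀ j, j < J → 2 * s j < s (j + 1) := fun j hj => (hs j hj).1
  have hpos : ∀ j, j ≤ J → 1 ≤ s j := by
    intro j
    induction j with
    | zero => intro _; exact hs0
    | succ j ih => intro hj; have := hs2 j (by omega); omega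
  have key := h N hN (J + 1) 2 J (fun _ _ => 1 / 2) (fun (j : Fin (J + 1)) k => if k = 1 then (s j : ℤ) else 0) c (fun j => (s j : ℝ)) G (1 / 2)
    (spread_half J s hs0 hs2) (by exact_mod_cast hsN) (fun ω => by
      have q0 : 0 ≤ ∑ j : Fin (J + 1), (if ω j = 1 then (s j : ℤ) else 0) := sum_nonneg fun j _ => by split_ifs <;> positivity
      have q1 : ∑ j : Fin (J + 1), (if ω j = 1 then (s j : ℤ) else 0) ≤ 2 * N := by
        calc ∑ j : Fin (J + 1), (if ω j = 1 then (s j : ℤ) else 0) ≤ ∑ j : Fin (J + 1), (s j : ℤ) := by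
              apply sum_le_sum
              intro j _
              split_ifs
              · exact le_rfl
              · positivity
          _ = ((∑ i ∈ range (J + 1), s i : ℕ) : ℤ) := by
              push_cast
              rw [← Fin.sum_univ_eq_sum_range (fun j => (s j : ℤ))]
          _ ≤ ((2 * s J : ℕ) : ℤ) := by exact_mod_cast sum_le_two J s hs2 J le_rfl
          _ ≤ 2 * N := by
              push_cast
              have : (s J : ℤ) ≤ N := by exact_mod_cast hsN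
              linarith
      calc |c + ∑ j : Fin (J + 1), (if ω j = 1 then (s j : ℤ) else 0)| ≤ |c| + |∑ j : Fin (J + 1), (if ω j = 1 then (s j : ℤ) else 0)| := abs_add_le _ _
        _ ≤ B * N + 2 * N := add_le_add hc (by rw [abs_of_nonneg q0]; exact q1)
        _ = _ := by push_cast; ring) hG (by linarith) (by
      have e : (range J).filter (fun j => G < (s (j + 1) : ℝ) / s j) = ∅ := by
        apply filter_eq_empty_iff.2
        intro j hj
        rw [mem_range] at hj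
        push Not
        have q1 : (1 : ℝ) ≤ s j := by exact_mod_cast hpos j (by omega)
        rw [div_le_iff₀ (by linarith)]
        exact (hs j hj).2
      rw [e, prod_empty, mul_one]
      exact hprod)
  have e1 := half_card J s c (fun h => h ≠ 0 ∧ ¬ GoodE t N P ((N : ℝ) / Real.log N ^ U) η h)
  have key2 : ((univ.filter (fun I : Finset (Fin (J + 1)) => c + ∑ j ∈ I, (s j : ℤ) ≠ 0 ∧
      ¬ GoodE t N P ((N : ℝ) / Real.log N ^ U) η (c + ∑ j ∈ I, (s j : ℤ)))).card : ℝ) / 2 ^ (J + 1) ≤ 1 / Real.log N ^ U := by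
    refine le_trans (le_of_eq ?_) key
    refine Eq.trans ?_ (e1.symm.trans ?_)
    · congr
    apply sum_congr
    · ext ω
      simp only [mem_filter]
    · intro ω _
      rfl
  rw [div_le_iff₀ (by positivity)] at key2
  refine key2.trans (le_of_eq ?_)
  ring

end Pool.Agent.Y958.SP
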